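import Pool.Agent.W_626a77_h48.HellA

/-!
# Kullback-Leibler divergences of translates
-/

set_option autoImplicit false

namespace Pool.Agent.QFR

open Finset Real

variable {G : Type} [AddCommGroup G] [Fintype G]

/-- `klt Y f t = Σ_z KL(Y_z + t ‖ Y_z + T)` (weighted by `P(z)`) where `T` has law `f` -/
noncomputable def klt (Y : Fam G) (f : G → ℝ) (t : G) : ℝ :=
  ∑ z, ∑ x, Y.m z (x - t) * Real.log (Y.m z (x - t) / conv (Y.m z) f x)

/-- convolution, summed over the second factor -/
theorem klt_conv_eq (m f : G → ℝ) (x : G) : conv m f x = ∑ t, m (x - t) * f t := by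
  unfold conv
  refine Fintype.sum_equiv (Equiv.subLeft x) _ _ fun y => ?_
  simp

theorem klt_le_conv {m f : G → ℝ} (hm : ∀ x, 0 ≤ m x) (hf : ∀ x, 0 ≤ f x) (x t : G) :
    m (x - t) * f t ≤ conv m f x := by
  rw [klt_conv_eq]
  exact Finset.single_le_sum (f := fun t => m (x - t) * f t)
    (fun t _ => mul_nonneg (hm _) (hf _)) (Finset.mem_univ t)

/-- the identity for one value of the conditioning variable -/
theorem klt_one (m f : G → ℝ) (hm : ∀ x, 0 ≤ m x) (hf : ∀ x, 0 ≤ f x) (h1 : ∑ x, f x = 1) :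
    ∑ t, f t * ∑ x, m (x - t) * Real.log (m (x - t) / conv m f x) =
      ent (conv m f) - ent m := by
  have h2 : ∀ t x, f t * (m (x - t) * Real.log (m (x - t) / conv m f x)) =
      f t * (m (x - t) * Real.log (m (x - t))) -
        m (x - t) * f t * Real.log (conv m f x) := by
    intro t x
    rcases (hm (x - t)).eq_or_lt with h | h
    · rw [← h]; simp
    rcases (hf t).eq_or_lt with h' | h'
    · rw [← h']; simp
    have h3 : 0 < conv m f x := (mul_pos h h').trans_le (klt_le_conv hm hf x t)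
    rw [Real.log_div h.ne' h3.ne']
    ring
  have h3 : ∑ t, f t * ∑ x, m (x - t) * Real.log (m (x - t) / conv m f x) =
      ∑ t, f t * ∑ x, m (x - t) * Real.log (m (x - t)) -
        ∑ x, ∑ t, m (x - t) * f t * Real.log (conv m f x) := by
    rw [Finset.sum_comm (f := fun x t => m (x - t) * f t * Real.log (conv m f x)),
      ← Finset.sum_sub_distrib]
    refine Finset.sum_congr rfl fun t _ => ?_
    rw [Finset.mul_sum, Finset.mul_sum, ← Finset.sum_sub_distrib]
    exact Finset.sum_congr rfl fun x _ => h2 t x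
  have h4 : ∑ t, f t * ∑ x, m (x - t) * Real.log (m (x - t)) = -∑ x, negMulLog (m x) := by
    have h5 : ∀ t, ∑ x, m (x - t) * Real.log (m (x - t)) = -∑ x, negMulLog (m x) := by
      intro t
      rw [← Finset.sum_neg_distrib]
      refine Fintype.sum_equiv (Equiv.subRight t) _ _ fun x => ?_
      simp [negMulLog]
    rw [Finset.sum_congr rfl fun t _ => by rw [h5 t], ← Finset.sum_mul, h1, one_mul]
  have h6 : ∑ x, ∑ t, m (x - t) * f t * Real.log (conv m f x) =
      -∑ x, negMulLog (conv m f x) := by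
    rw [← Finset.sum_neg_distrib]
    refine Finset.sum_congr rfl fun x _ => ?_
    rw [← Finset.sum_mul, ← klt_conv_eq]
    simp [negMulLog]
  rw [h3, h4, h6]
  unfold ent
  rw [sum_conv, h1, mul_one]
  ring

/-- the divergence is nonnegative for one value of the conditioning variable -/
theorem klt_one_nonneg (m f : G → ℝ) (hm : ∀ x, 0 ≤ m x) (hf : ∀ x, 0 ≤ f x)
    (h1 : ∑ x, f x = 1) (t : G) (ht : 0 < f t) :
    0 ≤ ∑ x, m (x - t) * Real.log (m (x - t) / conv m f x) := by
  have h2 : ∀ x, m (x - t) - conv m f x ≤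
      m (x - t) * Real.log (m (x - t) / conv m f x) := by
    intro x
    have h0 : 0 ≤ conv m f x := conv_nonneg hm hf x
    rcases (hm (x - t)).eq_or_lt with h | h
    · rw [← h]; simpa using h0
    have h3 : 0 < conv m f x := (mul_pos h ht).trans_le (klt_le_conv hm hf x t)
    have h4 := Real.log_le_sub_one_of_pos (div_pos h3 h)
    have h5 : Real.log (m (x - t) / conv m f x) = -Real.log (conv m f x / m (x - t)) := by
      rw [← Real.log_inv, inv_div]
    rw [h5]
    have h6 := mul_le_mul_of_nonneg_left h4 h.le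
    have h7 : m (x - t) * (conv m f x / m (x - t) - 1) = conv m f x - m (x - t) := by
      field_simp
    rw [h7] at h6
    linarith
  have h3 : ∑ x, m (x - t) = ∑ x, conv m f x := by
    rw [sum_conv, h1, mul_one]
    exact Fintype.sum_equiv (Equiv.subRight t) _ _ fun x => rfl
  calc (0 : ℝ) = ∑ x, (m (x - t) - conv m f x) := by
        rw [Finset.sum_sub_distrib, h3, sub_self]
    _ ≤ _ := Finset.sum_le_sum fun x _ => h2 x

/-- `Σ_t f(t) klt(t) = H(Y+T) - H(Y)`.  (For fixed `z`: `Σ_t f(t) m(x-t) = conv m f x`, and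
`m(x-t) log(m(x-t)/c(x)) = m(x-t) log m(x-t) - m(x-t) log c(x)` whenever `f t ≠ 0`
(if `m(x-t) ≠ 0` then `c(x) ≥ m(x-t) f t > 0`).  The terms `negMulLog (Σ_x ..)` cancel.) -/
theorem sum_klt (Y : Fam G) (f : G → ℝ) (h0 : ∀ x, 0 ≤ f x) (h1 : ∑ x, f x = 1) :
    ∑ t, f t * klt Y f t = (Y.add (Fam.single f h0 h1)).H - Y.H := by
  have h2 : ∑ t, f t * klt Y f t =
      ∑ z, ∑ t, f t * ∑ x, Y.m z (x - t) * Real.log (Y.m z (x - t) / conv (Y.m z) f x) := by
    unfold klt
    rw [Finset.sum_comm]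
    exact Finset.sum_congr rfl fun t _ => Finset.mul_sum _ _ _
  have h3 : (Y.add (Fam.single f h0 h1)).H = ∑ z, ent (conv (Y.m z) f) := by
    change ∑ t : Y.ι × Unit, ent (conv (Y.m t.1) f) = _
    rw [Fintype.sum_prod_type]
    simp
  rw [h2, h3, Fam.H, ← Finset.sum_sub_distrib]
  exact Finset.sum_congr rfl fun z _ => klt_one (Y.m z) f (Y.nn z) h0 h1

/-- for `f t > 0` every inner sum is nonnegative (`l1_sq_le` or log sum inequality) and
`(Σ_x |Y.m z (x-t) - conv (Y.m z) f x|)^2 ≤ 4 (Y.p z) KL_z(t)` -/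
theorem klt_nonneg (Y : Fam G) (f : G → ℝ) (h0 : ∀ x, 0 ≤ f x) (h1 : ∑ x, f x = 1)
    (t : G) (ht : 0 < f t) : 0 ≤ klt Y f t := by
  unfold klt
  exact Finset.sum_nonneg fun z _ => klt_one_nonneg (Y.m z) f (Y.nn z) h0 h1 t ht

end Pool.Agent.QFR
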