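import Pool.Agent.W_626a77_h48.Ent

/-!
# Entropy of uniform laws
-/

set_option autoImplicit false

namespace Pool.Agent.QFR

open Finset Real

variable {G : Type} [AddCommGroup G] [Fintype G]

variable [DecidableEq G]

theorem H_unif (A : Finset G) (hA : A.Nonempty) : (Fam.unif A hA).H = Real.log A.card := by
  have h0 : (A.card : ℝ) ≠ 0 := by exact_mod_cast hA.card_pos.ne'
  have h1 : (Fam.unif A hA).H = ent (QFR.unif A) := by
    show ∑ _i : Unit, ent (QFR.unif A) = _
    simp
  rw [h1]
  unfold ent
  rw [sum_unif hA, Real.negMulLog_one, sub_zero]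
  have h2 : ∀ x, Real.negMulLog (QFR.unif A x) =
      if x ∈ A then Real.negMulLog ((A.card : ℝ)⁻¹) else 0 := by
    intro x
    unfold QFR.unif
    split_ifs
    · rfl
    · exact Real.negMulLog_zero
  simp only [h2]
  rw [Finset.sum_ite_mem, Finset.univ_inter, Finset.sum_const, nsmul_eq_mul]
  unfold Real.negMulLog
  rw [Real.log_inv]
  field_simp

open scoped Pointwise in
/-- the law of `Y + Y'` is supported in `A + A` (`ent_le_card`) -/
theorem H_unif_add_unif_le (A : Finset G) (hA : A.Nonempty) :
    ((Fam.unif A hA).add (Fam.unif A hA)).H ≤ Real.log (A + A).card := by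
  have h1 : ((Fam.unif A hA).add (Fam.unif A hA)).H = ent (conv (QFR.unif A) (QFR.unif A)) := by
    show ∑ _i : Unit × Unit, ent (conv (QFR.unif A) (QFR.unif A)) = _
    simp
  rw [h1]
  have h2 := ent_le_card (conv (QFR.unif A) (QFR.unif A))
    (conv_nonneg (unif_nonneg A) (unif_nonneg A)) (A + A) (by
      intro x hx
      unfold conv
      refine Finset.sum_eq_zero fun y _ => ?_
      unfold QFR.unif
      by_cases hy : y ∈ A
      · by_cases hz : x - y ∈ A
        · exact absurd (Finset.mem_add.2 ⟨y, hy, x - y, hz, by abel⟩) hx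
        · rw [if_neg hz, mul_zero]
      · rw [if_neg hy, zero_mul])
  rw [sum_conv, sum_unif hA, mul_one, one_mul] at h2
  exact h2

end Pool.Agent.QFR
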