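import Pool.Agent.W_626a77_h48.Defs

/-!
# The exchange refinement
-/

set_option autoImplicit false

namespace Pool.Agent.QFR

open Finset Real

variable {G : Type} [AddCommGroup G] [Fintype G]

/-- The identity behind the exchange refinement. -/
lemma exchange_aux (a b c d : G → ℝ) (s x : G) :
    conv a c x * conv b d (s - x) =
      ∑ s₁, ∑ y, (a y * b (s₁ - y)) * (c (x - y) * d (s - s₁ - (x - y))) := by
  rw [Finset.sum_comm]
  unfold conv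
  rw [Finset.sum_mul]
  refine Finset.sum_congr rfl fun y _ => ?_
  rw [Finset.mul_sum]
  refine (Fintype.sum_equiv (Equiv.subRight y) _ _ fun s₁ => ?_).symm
  simp only [Equiv.subRight_apply]
  have e : s - s₁ - (x - y) = s - x - (s₁ - y) := by abel
  rw [e]
  ring

/-- Reindexing the sum over a fibre of the index map of `exchange`. -/
lemma exchange_reindex {I J K L : Type} [Fintype I] [Fintype J] [Fintype K] [Fintype L]
    (F : (I × J × G) × (K × L × G) → ℝ) (i₁ : I) (i₂ : J) (i₃ : K) (i₄ : L) (s : G)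
    [∀ i : (I × J × G) × (K × L × G), Decidable
      (((i.1.1, i.2.1), (i.1.2.1, i.2.2.1), i.1.2.2 + i.2.2.2) = ((i₁, i₃), (i₂, i₄), s))] :
    ∑ s₁, F ((i₁, i₂, s₁), (i₃, i₄, s - s₁)) =
      ∑ i : (I × J × G) × (K × L × G),
        if ((i.1.1, i.2.1), (i.1.2.1, i.2.2.1), i.1.2.2 + i.2.2.2) = ((i₁, i₃), (i₂, i₄), s)
        then F i else 0 := by
  rw [← Finset.sum_filter]
  refine (Finset.sum_nbij' (fun i => i.1.2.2)
    (fun s₁ => ((i₁, i₂, s₁), (i₃, i₄, s - s₁))) ?_ ?_ ?_ ?_ ?_).symm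
  · intro i _
    exact Finset.mem_univ _
  · intro s₁ _
    simp only [Finset.mem_filter, Finset.mem_univ, true_and]
    rw [add_sub_cancel]
  · rintro ⟨⟨j₁, j₂, s₁⟩, ⟨j₃, j₄, s₂⟩⟩ hi
    simp only [Finset.mem_filter, Finset.mem_univ, true_and, Prod.mk.injEq] at hi
    obtain ⟨⟨rfl, rfl⟩, ⟨rfl, rfl⟩, rfl⟩ := hi
    simp
  · intro s₁ _
    rfl
  · rintro ⟨⟨j₁, j₂, s₁⟩, ⟨j₃, j₄, s₂⟩⟩ hi
    simp only [Finset.mem_filter, Finset.mem_univ, true_and, Prod.mk.injEq] at hi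
    obtain ⟨⟨rfl, rfl⟩, ⟨rfl, rfl⟩, rfl⟩ := hi
    rw [add_sub_cancel_left]

/-- THE EXCHANGE REFINEMENT.  `S F (Y) = (Y₁+Y₃ | Y₁+Y₂, Y₃+Y₄)` refines
`F S (Y) = (Y₁+Y₃ | Y₁+Y₂+Y₃+Y₄)`.  The map on indices is
`((i₁,i₂,s₁),(i₃,i₄,s₂)) ↦ ((i₁,i₃),(i₂,i₄),s₁+s₂)`; the identity to check is, for fixed `i`'s,
`∑_{s₁+s₂=s} ∑_{y} a(y) b(s₁-y) c(x-y) d(s₂-(x-y)) = (a*c)(x) (b*d)(s-x)`. -/
theorem exchange (a b c d : Fam G) :
    Refines ((a.fib b).add (c.fib d)) ((a.add c).fib (b.add d)) := by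
  refine ⟨fun i => ((i.1.1, i.2.1), (i.1.2.1, i.2.2.1), i.1.2.2 + i.2.2.2), ?_⟩
  rintro ⟨⟨i₁, i₃⟩, ⟨i₂, i₄⟩, s⟩ x
  exact (exchange_aux (a.m i₁) (b.m i₂) (c.m i₃) (d.m i₄) s x).trans
    (@exchange_reindex G _ _ a.ι b.ι c.ι d.ι _ _ _ _
      (fun i : (a.ι × b.ι × G) × (c.ι × d.ι × G) =>
      conv (fun y => a.m i.1.1 y * b.m i.1.2.1 (i.1.2.2 - y))
        (fun y => c.m i.2.1 y * d.m i.2.2.1 (i.2.2.2 - y)) x) i₁ i₂ i₃ i₄ s
      (fun _ => Classical.propDecidable _))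

end Pool.Agent.QFR
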