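import Pool.Agent.W_626a77_h48.Core
import Pool.Agent.W_626a77_h71.CoreFin2

/-!
# The core theorem in the form used by the geometry of numbers part, and the main theorem
-/

set_option autoImplicit false

namespace Pool.Agent.QFR

open Finset Real
open scoped Pointwise

theorem exists_fin_sum {G : Type} [AddCommGroup G] [DecidableEq G] (A : Finset G) (l : ℕ) :
    ∀ u ∈ l • A, ∃ f : Fin l → G, (∀ i, f i ∈ A) ∧ u = ∑ i, f i := by
  induction l with
  | zero =>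
    intro u hu
    rw [zero_nsmul, Finset.mem_zero] at hu
    exact ⟨fun i => i.elim0, fun i => i.elim0, by simp [hu]⟩
  | succ l ih =>
    intro u hu
    rw [succ_nsmul, Finset.mem_add] at hu
    obtain ⟨x, hx, y, hy, rfl⟩ := hu
    obtain ⟨f, hf, rfl⟩ := ih x hx
    refine ⟨Fin.snoc (α := fun _ => G) f y, ?_, ?_⟩
    · intro i
      refine Fin.lastCases ?_ (fun j => ?_) i
      · rw [Fin.snoc_last]; exact hy
      · rw [Fin.snoc_castSucc]; exact hf j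
    · rw [Fin.sum_univ_castSucc]
      simp only [Fin.snoc_castSucc, Fin.snoc_last]

theorem boh_eq {G : Type} [AddCommGroup G] [Fintype G] (Λ : Finset (AddChar G ℂ)) (η : ℝ) :
    Pool.Agent.W_626a77_h71.Boh Λ η = Boh Λ η := by
  ext x
  rw [Pool.Agent.W_626a77_h71.mem_Boh]
  simp [Boh]

theorem core_1000 : Pool.Agent.W_626a77_h71.Core 1000 := by
  intro M _ A κ ν hA hκ hAA hν
  have hlog := Real.log_nonneg hκ
  obtain ⟨Λ, h1, h2, h3, ⟨v, h4⟩, h5⟩ := core κ hκ ν (by linarith) (ZMod M) A hA hAA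
  have e4 : ((1 : ℝ) / 4) ^ ν = (4 ^ ν)⁻¹ := by rw [one_div, inv_pow]
  rw [e4] at h1 h2 h4
  have hexp : ∀ {x y : ℝ}, exp (-(1000 * κ * ν)) * x ≤ y → x ≤ exp (1000 * κ * ν) * y := by
    intro x y hxy
    have h6 := mul_le_mul_of_nonneg_left hxy (Real.exp_pos (1000 * κ * ν)).le
    rw [← mul_assoc, ← Real.exp_add] at h6
    simpa using h6
  refine ⟨Λ, 2 ^ (10 * ν), le_rfl, ?_, ?_, ?_, ?_, ?_⟩
  · rw [boh_eq, boh_eq]; exact h1
  · rw [boh_eq]; exact hexp h2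
  · rw [boh_eq]; exact h3
  · refine ⟨A.filter fun y => y - v ∈ Boh Λ ((4 ^ ν)⁻¹), Finset.filter_subset _ _, hexp h4, v, ?_⟩
    intro x hx
    rw [boh_eq]
    exact (Finset.mem_filter.1 hx).2
  · intro x hx
    rw [boh_eq] at hx
    obtain ⟨u, hu, w, hw, rfl⟩ := h5 x hx
    obtain ⟨f, hf, rfl⟩ := exists_fin_sum A _ u hu
    obtain ⟨g, hg, rfl⟩ := exists_fin_sum A _ w hw
    exact ⟨f, g, hf, hg, rfl⟩

/-- Quasi-optimal Freiman-Ruzsa theorem in `ℤ`. -/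
theorem quasi_optimal :
    ∃ C : ℝ, 0 < C ∧ ∀ (K : ℝ) (A : Finset ℤ), A.Nonempty →
      (((A + A).card : ℝ) ≤ K * (A.card : ℝ)) →
      ∃ (d : ℕ) (B : Set (Fin d → ℝ)) (v : Fin d → ℤ) (T : Finset ℤ),
        (d : ℝ) ≤ C * (1 + Real.log K) ∧
        Convex ℝ B ∧ IsCompact B ∧ (interior B).Nonempty ∧ (∀ x ∈ B, -x ∈ B) ∧
        ({x : Fin d → ℤ | (fun i => (x i : ℝ)) ∈ B}.ncard ≤ A.card) ∧
        ((T.card : ℝ) ≤ Real.exp (C * (1 + Real.log K) * (1 + Real.log (1 + Real.log K)))) ∧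
        ∀ a ∈ A, ∃ t ∈ T, ∃ x : Fin d → ℤ,
          (fun i => (x i : ℝ)) ∈ B ∧ a = t + ∑ i, v i * x i :=
  Pool.Agent.W_626a77_h71.core_final 1000 (by norm_num) core_1000

end Pool.Agent.QFR
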