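import Pool.Agent.W_626a77_h48.FamB

/-!
# Large events have large cardinality; the typical part of a law

`f` is a probability law on `G` (the law of `T`), `Z` a family.  For an event `E` of probability
`a` with `0 < a < 1` write `f = a f₁ + (1-a) f₂` (`f₁ = f|E / a`, `f₂ = f|Eᶜ/(1-a)`).
By `ent_sum_le` and `ent_smul` (mixture): `H(Z+f) ≥ a H(Z+f₁) + (1-a) H(Z+f₂)`.
Grouping: `H(f) = a H(f₁) + (1-a) H(f₂) + h(a)`, `h(a) ≤ log 2`.
-/

set_option autoImplicit false

namespace Pool.Agent.QFR

open Finset Real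

variable {G : Type} [AddCommGroup G] [Fintype G]

/-- `ent (m * g) ≥ |g| ent m` -/
lemma eventA_conv_left (m g : G → ℝ) (hm : ∀ x, 0 ≤ m x) (hg : ∀ x, 0 ≤ g x) :
    (∑ y, g y) * ent m ≤ ent (conv m g) := by
  have h1 := ent_sum_le (Finset.univ : Finset G) (fun y x => g y * m (x - y))
    (fun y _ x => mul_nonneg (hg y) (hm _))
  have h2 : ∀ y : G, ent (fun x => g y * m (x - y)) = g y * ent m := fun y => by
    rw [ent_smul (g y) (fun x => m (x - y))]
    congr 1
    exact ent_equiv m (Equiv.subRight y)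
  simp only [h2] at h1
  rw [← Finset.sum_mul] at h1
  refine h1.trans (le_of_eq ?_)
  congr 1
  funext x
  unfold conv
  exact Fintype.sum_equiv (Equiv.subLeft x) _ _ fun y => by
    simp only [Equiv.subLeft_apply, sub_sub_cancel]
    ring

/-- `ent (m * g) ≥ |m| ent g` -/
lemma eventA_conv_right (m g : G → ℝ) (hm : ∀ x, 0 ≤ m x) (hg : ∀ x, 0 ≤ g x) :
    (∑ y, m y) * ent g ≤ ent (conv m g) := by
  have h1 := ent_sum_le (Finset.univ : Finset G) (fun y x => m y * g (x - y))
    (fun y _ x => mul_nonneg (hm y) (hg _))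
  have h2 : ∀ y : G, ent (fun x => m y * g (x - y)) = m y * ent g := fun y => by
    rw [ent_smul (m y) (fun x => g (x - y))]
    congr 1
    exact ent_equiv g (Equiv.subRight y)
  simp only [h2] at h1
  rw [← Finset.sum_mul] at h1
  exact h1

/-- superadditivity for the convolution with a sum of two functions -/
lemma eventA_conv_add (m g g' : G → ℝ) (hm : ∀ x, 0 ≤ m x) (hg : ∀ x, 0 ≤ g x)
    (hg' : ∀ x, 0 ≤ g' x) :
    ent (conv m g) + ent (conv m g') ≤ ent (conv m fun x => g x + g' x) := by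
  have h1 := ent_sum_le (Finset.univ : Finset Bool)
    (fun b x => if b then conv m g x else conv m g' x) (fun b _ x => by
      cases b
      · simpa using conv_nonneg hm hg' x
      · simpa using conv_nonneg hm hg x)
  simp only [Fintype.univ_bool, Finset.mem_singleton, Bool.true_eq_false, not_false_eq_true,
    Finset.sum_insert, Finset.sum_singleton, if_true, Bool.false_eq_true, if_false] at h1
  refine h1.trans (le_of_eq ?_)
  congr 1
  funext x
  unfold conv
  rw [← Finset.sum_add_distrib]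
  exact Finset.sum_congr rfl fun y _ => by ring

lemma eventA_H_single (f : G → ℝ) (h0 : ∀ x, 0 ≤ f x) (h1 : ∑ x, f x = 1) :
    (Fam.single f h0 h1).H = ent f := by
  unfold Fam.H Fam.single
  simp

lemma eventA_H_add_single (Z : Fam G) (f : G → ℝ) (h0 : ∀ x, 0 ≤ f x) (h1 : ∑ x, f x = 1) :
    (Z.add (Fam.single f h0 h1)).H = ∑ i, ent (conv (Z.m i) f) := by
  unfold Fam.H
  exact Fintype.sum_equiv (Equiv.prodPUnit Z.ι) _ _ fun x => rfl

/-- `H(Z+T) ≥ (1-a) H(T|Eᶜ) + a H(Z)` and `H(T) ≤ a H(T|E) + (1-a) H(T|Eᶜ) + log 2`, hence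
`a log|E| ≥ a H(T|E) ≥ a H(Z) - (H(Z+T)-H(T)) - log 2`, divide by `a ≥ 1/2`. -/
theorem log_card_event_ge (Z : Fam G) (f : G → ℝ) (h0 : ∀ x, 0 ≤ f x) (h1 : ∑ x, f x = 1)
    (E : Finset G) (hE : 1 / 2 ≤ ∑ x ∈ E, f x) :
    Z.H - 2 * ((Z.add (Fam.single f h0 h1)).H - (Fam.single f h0 h1).H) - 2 * Real.log 2
      ≤ Real.log E.card := by
  classical
  rw [eventA_H_single, eventA_H_add_single]
  set g : G → ℝ := fun x => if x ∈ E then f x else 0 with hg
  set g' : G → ℝ := fun x => if x ∈ E then 0 else f x with hg'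
  have hg0 : ∀ x, 0 ≤ g x := fun x => by
    simp only [hg]; split_ifs
    · exact h0 x
    · exact le_rfl
  have hg0' : ∀ x, 0 ≤ g' x := fun x => by
    simp only [hg']; split_ifs
    · exact le_rfl
    · exact h0 x
  have hsplit : ∀ x, g x + g' x = f x := fun x => by
    simp only [hg, hg']; split_ifs <;> ring
  set a : ℝ := ∑ x, g x with ha
  set b : ℝ := ∑ x, g' x with hb
  have haE : a = ∑ x ∈ E, f x := by
    simp only [ha, hg]
    rw [Finset.sum_ite_mem, Finset.univ_inter]
  have hab : a + b = 1 := by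
    rw [ha, hb, ← Finset.sum_add_distrib, ← h1]
    exact Finset.sum_congr rfl fun x _ => hsplit x
  have ha2 : 1 / 2 ≤ a := by rw [haE]; exact hE
  have hp : ∑ i, Z.p i = 1 := Z.tot
  -- lower bound for the entropy of the sum
  have hS : a * Z.H + ent g' ≤ ∑ i, ent (conv (Z.m i) f) := by
    have e1 : ∀ i, a * ent (Z.m i) + Z.p i * ent g' ≤ ent (conv (Z.m i) f) := fun i => by
      have e2 := eventA_conv_left (Z.m i) g (Z.nn i) hg0
      have e3 := eventA_conv_right (Z.m i) g' (Z.nn i) hg0'
      have e4 := eventA_conv_add (Z.m i) g g' (Z.nn i) hg0 hg0'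
      have e5 : (fun x => g x + g' x) = f := funext hsplit
      rw [e5] at e4
      have e6 : Z.p i = ∑ y, Z.m i y := rfl
      rw [e6]
      linarith
    have e7 := Finset.sum_le_sum fun i (_ : i ∈ (Finset.univ : Finset Z.ι)) => e1 i
    rw [Finset.sum_add_distrib, ← Finset.mul_sum, ← Finset.sum_mul, hp, one_mul] at e7
    exact e7
  -- nonnegativity of the increment
  have hq : ent f ≤ ∑ i, ent (conv (Z.m i) f) := by
    have e7 := Finset.sum_le_sum fun i (_ : i ∈ (Finset.univ : Finset Z.ι)) =>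
      eventA_conv_right (Z.m i) f (Z.nn i) h0
    rw [← Finset.sum_mul] at e7
    have e8 : ∑ i, ∑ y, Z.m i y = 1 := Z.tot
    rw [e8, one_mul] at e7
    exact e7
  -- grouping
  have hgr : ent f = ent g + ent g' + (negMulLog a + negMulLog b) := by
    unfold ent
    rw [h1, ← ha, ← hb, negMulLog_one]
    have : ∑ x, negMulLog (f x) = ∑ x, negMulLog (g x) + ∑ x, negMulLog (g' x) := by
      rw [← Finset.sum_add_distrib]
      refine Finset.sum_congr rfl fun x _ => ?_
      simp only [hg, hg']
      split_ifs <;> simp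
    rw [this]
    ring
  have hlog2 : negMulLog a + negMulLog b ≤ Real.log 2 := by
    have h := Real.binEntropy_le_log_two (p := a)
    rw [Real.binEntropy_eq_negMulLog_add_negMulLog_one_sub] at h
    have : b = 1 - a := by linarith
    rw [this]
    exact h
  have hcard : ent g ≤ a * Real.log E.card := by
    refine ent_le_card g hg0 E fun x hx => ?_
    simp only [hg, if_neg hx]
  set s : ℝ := ∑ i, ent (conv (Z.m i) f) with hs
  have hlog2' : 0 ≤ Real.log 2 := Real.log_nonneg (by norm_num)
  have key : a * (Z.H - Real.log E.card) ≤ (s - ent f) + Real.log 2 := by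
    rw [hgr]
    nlinarith
  by_contra hcon
  push Not at hcon
  have h3 : 2 * ((s - ent f) + Real.log 2) < Z.H - Real.log E.card := by linarith
  have h4 : 0 ≤ (s - ent f) + Real.log 2 := by linarith
  have h5 : a * (2 * ((s - ent f) + Real.log 2)) < a * (Z.H - Real.log E.card) :=
    mul_lt_mul_of_pos_left h3 (by linarith)
  nlinarith

end Pool.Agent.QFR
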