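import Pool.Agent.W_626a77_h48.FamB

/-!
# Large events have large cardinality; the typical part of a law

`f` is a probability law on `G` (the law of `T`), `Z` a family.  For an event `E` of probability
`a` with `0 < a < 1` write `f = a f₁ + (1-a) f₂` (`f₁ = f|E / a`, `f₂ = f|Eᶜ/(1-a)`).
By `ent_sum_le` and `ent_smul` (mixture): `H(Z+f) ≥ a H(Z+f₁) + (1-a) H(Z+f₂)`.
Grouping: `H(f) = a H(f₁) + (1-a) H(f₂) + h(a)`, `h(a) ≤ log 2`.
-/

set_option autoImplicit false

namespace Pool.Agent.QFR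

open Finset Real

variable {G : Type} [AddCommGroup G] [Fintype G]

theorem typical_single_H (f : G → ℝ) (h0 : ∀ x, 0 ≤ f x) (h1 : ∑ x, f x = 1) :
    (Fam.single f h0 h1).H = ∑ x, negMulLog (f x) := by
  have e : (Fam.single f h0 h1).H = ent f := Fintype.sum_unique (ι := Unit) fun _ => ent f
  rw [e, ent, h1, Real.negMulLog_one, sub_zero]

theorem typical_add_H (Z : Fam G) (f : G → ℝ) (h0 : ∀ x, 0 ≤ f x) (h1 : ∑ x, f x = 1) :
    (Z.add (Fam.single f h0 h1)).H = ∑ i, ent (conv (Z.m i) f) := by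
  have e : (Z.add (Fam.single f h0 h1)).H = ∑ t : Z.ι × Unit, ent (conv (Z.m t.1) f) := rfl
  rw [e, Fintype.sum_prod_type]
  exact Finset.sum_congr rfl fun i _ => Fintype.sum_unique _

theorem typical_mix (Z : Fam G) (f g₁ g₂ : G → ℝ) (h0 : ∀ x, 0 ≤ f x) (h1 : ∑ x, f x = 1)
    (k0 : ∀ x, 0 ≤ g₁ x) (k1 : ∑ x, g₁ x = 1) (l0 : ∀ x, 0 ≤ g₂ x) (l1 : ∑ x, g₂ x = 1)
    {a b : ℝ} (ha : 0 ≤ a) (hb : 0 ≤ b) (hf : ∀ x, f x = a * g₁ x + b * g₂ x) :
    a * (Z.add (Fam.single g₁ k0 k1)).H + b * (Z.add (Fam.single g₂ l0 l1)).H ≤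
      (Z.add (Fam.single f h0 h1)).H := by
  rw [typical_add_H, typical_add_H, typical_add_H, Finset.mul_sum, Finset.mul_sum,
    ← Finset.sum_add_distrib]
  refine Finset.sum_le_sum fun i _ => ?_
  have key := ent_sum_le (G := G) (κ := Bool) Finset.univ
    (fun t x => if t then a * conv (Z.m i) g₁ x else b * conv (Z.m i) g₂ x) (by
      intro t _ x
      cases t
      · simpa using mul_nonneg hb (conv_nonneg (Z.nn i) l0 x)
      · simpa using mul_nonneg ha (conv_nonneg (Z.nn i) k0 x))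
  simp only [Fintype.sum_bool, if_true, Bool.false_eq_true, if_false] at key
  rw [ent_smul, ent_smul] at key
  refine key.trans (le_of_eq ?_)
  congr 1
  funext x
  unfold conv
  rw [Finset.mul_sum, Finset.mul_sum, ← Finset.sum_add_distrib]
  refine Finset.sum_congr rfl fun y _ => ?_
  rw [hf]
  ring

theorem typical_negMulLog_le {a : ℝ} (ha : 0 < a) : negMulLog a ≤ 1 := by
  have h1 := Real.one_sub_inv_le_log_of_pos ha
  have h2 : a * (1 - a⁻¹) ≤ a * Real.log a := mul_le_mul_of_nonneg_left h1 ha.le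
  have h3 : a * (1 - a⁻¹) = a - 1 := by
    rw [mul_sub, mul_one, mul_inv_cancel₀ ha.ne']
  rw [h3] at h2
  unfold negMulLog
  linarith

/-- THE TYPICAL PART.  `lam = 2(q+ρ+1)`, `E' = {x | f x ≤ exp(-H(f)+lam)}`, `g = f|E' / f(E')`.
`f(E') ≥ 1/2`: let `b = f(E'ᶜ)`.  `H(f) = Σ f log(1/f) ≤ b (H(f) - lam) + (1-b) H(f|E') + 1`
(as `(1-b) log (1/(1-b)) ≤ 1`), and `(1-b) H(f|E') ≤ (1-b) H(Z+f|E') ≤ H(Z+f) - b H(Z)` (mixture and
`H(Z) ≤ H(Z+f|E'ᶜ)`).  So `b lam ≤ H(Z+f) - H(f) + b (H(f)-H(Z)) + 1 ≤ q + ρ + 1`, because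
`H(f) - H(Z) ≤ H(Z+f) - H(Z) ≤ ρ`.
Then `g ≤ 2 f ≤ 2 exp(-H(f)+lam)` and `H(Z+f) ≥ a H(Z+g) + (1-a) H(Z)` with `a ≥ 1/2` gives
`H(Z+g) ≤ H(Z) + 2ρ`.  (Treat `b = 0` separately: `g = f`.) -/
theorem typical (Z : Fam G) (f : G → ℝ) (h0 : ∀ x, 0 ≤ f x) (h1 : ∑ x, f x = 1) {q ρ : ℝ}
    (hq : (Z.add (Fam.single f h0 h1)).H - (Fam.single f h0 h1).H ≤ q)
    (hρ : (Z.add (Fam.single f h0 h1)).H - Z.H ≤ ρ) :
    ∃ (g : G → ℝ) (g0 : ∀ x, 0 ≤ g x) (g1 : ∑ x, g x = 1),
      (∀ x, g x ≤ 2 * exp (-(Fam.single f h0 h1).H + 2 * (q + ρ + 1))) ∧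
      (Z.add (Fam.single g g0 g1)).H ≤ Z.H + 2 * ρ ∧
      (∀ x, f x = 0 → g x = 0) := by
  classical
  have hq0 : (Fam.single f h0 h1).H ≤ (Z.add (Fam.single f h0 h1)).H := H_le_add_right _ _
  have hρ0 : Z.H ≤ (Z.add (Fam.single f h0 h1)).H := H_le_add_left _ _
  set Hf : ℝ := (Fam.single f h0 h1).H with hHf
  set K : ℝ := (Z.add (Fam.single f h0 h1)).H with hK
  set lam : ℝ := 2 * (q + ρ + 1) with hlam
  have hlam0 : 0 < lam := by
    rw [hlam]
    linarith
  by_cases hall : ∀ x, f x ≤ exp (-Hf + lam)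
  · refine ⟨f, h0, h1, fun x => ?_, ?_, fun x hx => hx⟩
    · have := (Real.exp_pos (-Hf + lam)).le
      linarith [hall x]
    · rw [← hK]
      linarith
  · push Not at hall
    obtain ⟨x₀, hx₀⟩ := hall
    obtain ⟨f₁, hf₁⟩ : ∃ f₁ : G → ℝ, f₁ = fun x => if f x ≤ exp (-Hf + lam) then f x else 0 :=
      ⟨_, rfl⟩
    obtain ⟨f₂, hf₂⟩ : ∃ f₂ : G → ℝ, f₂ = fun x => if f x ≤ exp (-Hf + lam) then 0 else f x :=
      ⟨_, rfl⟩
    have hf : ∀ x, f x = f₁ x + f₂ x := by
      intro x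
      rw [hf₁, hf₂]
      dsimp only
      split_ifs <;> simp
    have f₁0 : ∀ x, 0 ≤ f₁ x := by
      intro x
      rw [hf₁]
      dsimp only
      split_ifs
      · exact h0 x
      · exact le_rfl
    have f₂0 : ∀ x, 0 ≤ f₂ x := by
      intro x
      rw [hf₂]
      dsimp only
      split_ifs
      · exact le_rfl
      · exact h0 x
    obtain ⟨a, ha⟩ : ∃ a, a = ∑ x, f₁ x := ⟨_, rfl⟩
    obtain ⟨b, hb⟩ : ∃ b, b = ∑ x, f₂ x := ⟨_, rfl⟩
    have hab : a + b = 1 := by
      rw [ha, hb, ← Finset.sum_add_distrib, ← h1]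
      exact Finset.sum_congr rfl fun x _ => (hf x).symm
    have ha0 : 0 ≤ a := by
      rw [ha]
      exact Finset.sum_nonneg fun x _ => f₁0 x
    have hb0 : 0 < b := by
      rw [hb]
      refine Finset.sum_pos' (fun x _ => f₂0 x) ⟨x₀, Finset.mem_univ _, ?_⟩
      rw [hf₂]
      dsimp only
      rw [if_neg (not_le.2 hx₀)]
      exact (Real.exp_pos _).trans hx₀
    -- entropy of `f`
    have hH : Hf = ∑ x, negMulLog (f₁ x) + ∑ x, negMulLog (f₂ x) := by
      rw [hHf, typical_single_H, ← Finset.sum_add_distrib]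
      refine Finset.sum_congr rfl fun x _ => ?_
      rw [hf₁, hf₂]
      dsimp only
      split_ifs <;> simp
    have hH2 : ∑ x, negMulLog (f₂ x) ≤ b * (Hf - lam) := by
      rw [hb, Finset.sum_mul]
      refine Finset.sum_le_sum fun x _ => ?_
      rw [hf₂]
      dsimp only
      split_ifs with h
      · simp
      · push Not at h
        have hpos : 0 < f x := (Real.exp_pos _).trans h
        have h2 : -Hf + lam < Real.log (f x) := (Real.lt_log_iff_exp_lt hpos).2 h
        have h3 : f x * (-Real.log (f x)) ≤ f x * (Hf - lam) :=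
          mul_le_mul_of_nonneg_left (by linarith) hpos.le
        unfold negMulLog
        linarith
    have ha1 : 0 < a := by
      rcases ha0.lt_or_eq with h | h
      · exact h
      · exfalso
        have hz : ∀ x, f₁ x = 0 := by
          intro x
          have h2 : ∑ x, f₁ x = 0 := by rw [← ha, ← h]
          exact (Finset.sum_eq_zero_iff_of_nonneg fun x _ => f₁0 x).1 h2 x (Finset.mem_univ x)
        have h3 : ∑ x, negMulLog (f₁ x) = 0 :=
          Finset.sum_eq_zero fun x _ => by rw [hz x, Real.negMulLog_zero]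
        have h4 : b = 1 := by linarith
        rw [h3, zero_add] at hH
        rw [h4, one_mul] at hH2
        linarith
    -- the two laws
    have g₁0 : ∀ x, 0 ≤ f₁ x / a := fun x => div_nonneg (f₁0 x) ha1.le
    have g₂0 : ∀ x, 0 ≤ f₂ x / b := fun x => div_nonneg (f₂0 x) hb0.le
    have g₁1 : ∑ x, f₁ x / a = 1 := by
      rw [← Finset.sum_div, ← ha]
      exact div_self ha1.ne'
    have g₂1 : ∑ x, f₂ x / b = 1 := by
      rw [← Finset.sum_div, ← hb]
      exact div_self hb0.ne'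
    have hmix := typical_mix Z f (fun x => f₁ x / a) (fun x => f₂ x / b) h0 h1 g₁0 g₁1 g₂0 g₂1
      ha1.le hb0.le fun x => by
        show f x = a * (f₁ x / a) + b * (f₂ x / b)
        rw [mul_div_cancel₀ _ ha1.ne', mul_div_cancel₀ _ hb0.ne']
        exact hf x
    rw [← hK] at hmix
    have hZ2 : Z.H ≤ (Z.add (Fam.single (fun x => f₂ x / b) g₂0 g₂1)).H := H_le_add_left _ _
    have hZ1 : (Fam.single (fun x => f₁ x / a) g₁0 g₁1).H ≤
        (Z.add (Fam.single (fun x => f₁ x / a) g₁0 g₁1)).H := H_le_add_right _ _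
    have hent : a * (Fam.single (fun x => f₁ x / a) g₁0 g₁1).H =
        ∑ x, negMulLog (f₁ x) - negMulLog a := by
      have e1 : (Fam.single (fun x => f₁ x / a) g₁0 g₁1).H = ent (fun x => f₁ x / a) :=
        Fintype.sum_unique (ι := Unit) fun _ => ent (fun x => f₁ x / a)
      rw [e1, ← ent_smul]
      have e2 : (fun x => a * (f₁ x / a)) = f₁ := by
        funext x
        exact mul_div_cancel₀ _ ha1.ne'
      rw [e2, ent, ← ha]
    have hna := typical_negMulLog_le ha1
    have hZ1' := mul_le_mul_of_nonneg_left hZ1 ha1.le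
    have hZ2' := mul_le_mul_of_nonneg_left hZ2 hb0.le
    rw [hent] at hZ1'
    have hb1 : b ≤ 1 / 2 := by
      have h3 : b * (Hf - Z.H) ≤ ρ := by
        have h4 : b * (Hf - Z.H) ≤ b * ρ := mul_le_mul_of_nonneg_left (by linarith) hb0.le
        have h5 : b * ρ ≤ 1 * ρ := mul_le_mul_of_nonneg_right (by linarith) (by linarith)
        linarith
      have h6 : b * lam ≤ lam / 2 := by
        have h7 : b * (Hf - lam) = b * Hf - b * lam := by ring
        have h8 : b * (Hf - Z.H) = b * Hf - b * Z.H := by ring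
        rw [h7] at hH2
        rw [h8] at h3
        have h9 : lam / 2 = q + ρ + 1 := by rw [hlam]; ring
        rw [h9]
        linarith
      by_contra hc
      push Not at hc
      have h10 : 1 / 2 * lam < b * lam := mul_lt_mul_of_pos_right hc hlam0
      linarith
    have ha2 : 1 / 2 ≤ a := by linarith
    refine ⟨fun x => f₁ x / a, g₁0, g₁1, ?_, ?_, ?_⟩
    · intro x
      have h3 : f₁ x ≤ exp (-Hf + lam) := by
        rw [hf₁]
        dsimp only
        split_ifs with h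
        · exact h
        · exact (Real.exp_pos _).le
      rw [div_le_iff₀ ha1]
      have h4 : 1 / 2 * exp (-Hf + lam) ≤ a * exp (-Hf + lam) :=
        mul_le_mul_of_nonneg_right ha2 (Real.exp_pos _).le
      linarith
    · have h3 : a * (Z.add (Fam.single (fun x => f₁ x / a) g₁0 g₁1)).H ≤ a * (Z.H + 2 * ρ) := by
        have h4 : 1 / 2 * (2 * ρ) ≤ a * (2 * ρ) :=
          mul_le_mul_of_nonneg_right ha2 (by linarith)
        have h5 : a * (Z.H + 2 * ρ) = (1 - b) * Z.H + a * (2 * ρ) := by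
          have : a = 1 - b := by linarith
          rw [← this]
          ring
        rw [h5]
        linarith
      exact le_of_mul_le_mul_left h3 ha1
    · intro x hx
      have h3 : f₁ x = 0 := by
        have h4 := hf x
        have h5 := f₁0 x
        have h6 := f₂0 x
        linarith
      show f₁ x / a = 0
      rw [h3, zero_div]

end Pool.Agent.QFR
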