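import Pool.Agent.W_626a77_h48.Defs

/-!
# Collision probability and entropy
-/

set_option autoImplicit false

namespace Pool.Agent.QFR

open Finset Real

variable {G : Type} [AddCommGroup G] [Fintype G]

/-- Jensen (weighted AM-GM, weights `a.m i x` of total mass one):
`Σ_{i,x} m_i(x) (m_i(x)/p_i) ≥ exp (Σ m_i(x) log (m_i(x)/p_i)) = exp(-H)`. -/
theorem exp_neg_H_le_corr (a : Fam G) : exp (-a.H) ≤ a.corr 0 := by
  have hp : ∀ i x, a.m i x ≤ a.p i := fun i x =>
    Finset.single_le_sum (f := fun x => a.m i x) (fun y _ => a.nn i y) (Finset.mem_univ x)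
  have key := convexOn_exp.map_sum_le (t := (Finset.univ : Finset (a.ι × G)))
    (w := fun t => a.m t.1 t.2) (p := fun t => Real.log (a.m t.1 t.2 / a.p t.1))
    (fun t _ => a.nn _ _) (by rw [Fintype.sum_prod_type]; exact a.tot) (fun _ _ => Set.mem_univ _)
  simp only [smul_eq_mul, Fintype.sum_prod_type] at key
  have e1 : -a.H = ∑ i, ∑ x, a.m i x * Real.log (a.m i x / a.p i) := by
    unfold Fam.H
    rw [← Finset.sum_neg_distrib]
    refine Finset.sum_congr rfl fun i _ => ?_
    have h1 : ∀ x, a.m i x * Real.log (a.m i x / a.p i) =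
        -negMulLog (a.m i x) - a.m i x * Real.log (a.p i) := by
      intro x
      rcases (a.nn i x).eq_or_lt with h | h
      · rw [← h]; simp
      · rw [Real.log_div h.ne' (h.trans_le (hp i x)).ne', negMulLog]
        ring
    rw [Finset.sum_congr rfl fun x _ => h1 x, Finset.sum_sub_distrib, Finset.sum_neg_distrib,
      ← Finset.sum_mul]
    unfold ent
    change -(∑ x, negMulLog (a.m i x) - negMulLog (a.p i)) =
      -∑ x, negMulLog (a.m i x) - a.p i * Real.log (a.p i)
    rw [negMulLog]
    ring
  have e2 : a.corr 0 = ∑ i, ∑ x, a.m i x * exp (Real.log (a.m i x / a.p i)) := by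
    unfold Fam.corr
    refine Finset.sum_congr rfl fun i _ => ?_
    rw [Finset.sum_div]
    refine Finset.sum_congr rfl fun x _ => ?_
    rw [add_zero]
    rcases (a.nn i x).eq_or_lt with h | h
    · rw [← h]; simp
    · rw [Real.exp_log (div_pos h (h.trans_le (hp i x))), mul_div_assoc]
  rw [e1, e2]
  exact key

end Pool.Agent.QFR
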