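import Pool.Agent.W_626a77_h48.FourA

/-!
# Lower bound on the Bohr set
-/

set_option autoImplicit false

namespace Pool.Agent.QFR

open Finset Real

variable {G : Type} [AddCommGroup G] [Fintype G]

/-- `‖1 - z‖ ≤ 1` and `‖z‖ = 1` give `1/2 ≤ re z` -/
theorem half_le_re {z : ℂ} (hz : ‖z‖ = 1) (h : ‖1 - z‖ ≤ 1) : 1 / 2 ≤ z.re := by
  have h1 : ‖z‖ ^ 2 = z.re ^ 2 + z.im ^ 2 := by
    rw [← Complex.normSq_eq_norm_sq, Complex.normSq_apply]
    ring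
  have h2 : ‖1 - z‖ ^ 2 = (1 - z.re) ^ 2 + z.im ^ 2 := by
    rw [← Complex.normSq_eq_norm_sq, Complex.normSq_apply]
    simp only [Complex.sub_re, Complex.sub_im, Complex.one_re, Complex.one_im]
    ring
  have h3 : ‖1 - z‖ ^ 2 ≤ 1 := pow_le_one₀ (norm_nonneg _) h
  rw [h2] at h3
  rw [hz] at h1
  nlinarith

open Classical in
/-- LOWER BOUND ON THE BOHR SET.  `Λ = {χ | 1/4 ≤ Y.spec χ}`, `‖1 - χ x‖ ≤ 1 → 1/2 ≤ (χ x).re`
(as `‖χ x‖ = 1`).  `W = (Y.S j).add g`, `W.spec = (Y.spec)^(2^j) * g.spec`: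
`corr x ≥ |G|⁻¹ (1/2 Σ_Λ W.spec - Σ_{Λᶜ} W.spec) = 1/2 corr 0 - 3/2 |G|⁻¹ Σ_{Λᶜ} W.spec` and
`Σ_{Λᶜ} W.spec ≤ (1/4)^(2^j) Σ g.spec`. -/
theorem corr_lower (Y : Fam G) (j : ℕ) (g : G → ℝ) (g0 : ∀ x, 0 ≤ g x) (g1 : ∑ x, g x = 1)
    (x : G) (hx : x ∈ Boh (Finset.univ.filter fun χ : AddChar G ℂ => 1 / 4 ≤ Y.spec χ) 1) :
    (1 / 2) * ((Y.S j).add (Fam.single g g0 g1)).corr 0
      - (3 / 2) * (1 / 4) ^ (2 ^ j) * ∑ x, g x ^ 2
      ≤ ((Y.S j).add (Fam.single g g0 g1)).corr x := by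
  have hG : (0 : ℝ) < Fintype.card G := by
    exact_mod_cast Fintype.card_pos
  have hx' : ∀ χ : AddChar G ℂ, 1 / 4 ≤ Y.spec χ → ‖1 - χ x‖ ≤ 1 := by
    intro χ hχ
    unfold Boh at hx
    exact (Finset.mem_filter.1 hx).2 χ (Finset.mem_filter.2 ⟨Finset.mem_univ _, hχ⟩)
  have hspec : ∀ χ : AddChar G ℂ, ((Y.S j).add (Fam.single g g0 g1)).spec χ =
      Y.spec χ ^ (2 ^ j) * (Fam.single g g0 g1).spec χ := by
    intro χ
    rw [spec_add, spec_S]
  have hterm : ∀ χ : AddChar G ℂ,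
      (1 / 2) * (((Y.S j).add (Fam.single g g0 g1)).spec χ * (χ (0 : G)).re) -
        (3 / 2) * (1 / 4) ^ (2 ^ j) * (Fam.single g g0 g1).spec χ ≤
      ((Y.S j).add (Fam.single g g0 g1)).spec χ * (χ x).re := by
    intro χ
    have hW : 0 ≤ ((Y.S j).add (Fam.single g g0 g1)).spec χ := spec_nonneg _ _
    have hg : 0 ≤ (Fam.single g g0 g1).spec χ := spec_nonneg _ _
    have hpow : (0 : ℝ) ≤ (1 / 4) ^ (2 ^ j) := by positivity
    have h0 : (χ (0 : G)).re = 1 := by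
      rw [AddChar.map_zero_eq_one, Complex.one_re]
    rw [h0, mul_one]
    rcases le_or_gt (1 / 4) (Y.spec χ) with h | h
    · have h1 : 1 / 2 ≤ (χ x).re := half_le_re (AddChar.norm_apply _ _) (hx' χ h)
      have h2 := mul_le_mul_of_nonneg_left h1 hW
      have h3 := mul_nonneg hpow hg
      linarith
    · have h1 : -1 ≤ (χ x).re := by
        have := Complex.abs_re_le_norm (χ x)
        rw [AddChar.norm_apply] at this
        exact (abs_le.1 this).1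
      have h2 := mul_le_mul_of_nonneg_left h1 hW
      have h3 : ((Y.S j).add (Fam.single g g0 g1)).spec χ ≤
          (1 / 4) ^ (2 ^ j) * (Fam.single g g0 g1).spec χ := by
        rw [hspec]
        exact mul_le_mul_of_nonneg_right (pow_le_pow_left₀ (spec_nonneg _ _) h.le _) hg
      linarith
  have hsum := Finset.sum_le_sum fun χ (_ : χ ∈ (Finset.univ : Finset (AddChar G ℂ))) => hterm χ
  rw [Finset.sum_sub_distrib, ← Finset.mul_sum, ← Finset.mul_sum, sum_spec_single] at hsum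
  rw [corr_eq, corr_eq]
  have h4 := mul_le_mul_of_nonneg_left hsum (inv_nonneg.2 hG.le)
  refine le_trans (le_of_eq ?_) h4
  field_simp

end Pool.Agent.QFR
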