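import Pool.Agent.W_626a77_h48.Defs

/-!
# The dense piece
-/

set_option autoImplicit false

namespace Pool.Agent.QFR

open Finset Real

variable {G : Type} [AddCommGroup G] [Fintype G]

variable [DecidableEq G]

/-- DENSE PIECE.  `corr (Z + X) x = Σ_z Σ_u corr_z(u) Σ_y g(y) g(y + x - u)`
(`g = unif A`, `corr_z(u) = Σ_v f_z(v+u) f_z(v)`, `Σ_u corr_z(u) = p_z ...`):
`Σ_{x ∈ P} corr x` is an average of `Σ_{x∈P} g(v + x) = |A ∩ (v + P)|/|A|` over `v`. -/
theorem exists_dense_piece (Z : Fam G) (A : Finset G) (hA : A.Nonempty) (P : Finset G)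
    {b : ℝ} (hb : b ≤ ∑ x ∈ P, (Z.add (Fam.unif A hA)).corr x) :
    ∃ v : G, b * A.card ≤ ((A.filter fun y => y - v ∈ P).card : ℝ) := by
  have hc0 : (0 : ℝ) < A.card := by exact_mod_cast hA.card_pos
  obtain ⟨v, hv⟩ := Finite.exists_max (fun v : G => ∑ x ∈ P, QFR.unif A (v + x))
  set M : ℝ := ∑ x ∈ P, QFR.unif A (v + x) with hM
  have hM0 : 0 ≤ M := Finset.sum_nonneg fun x _ => unif_nonneg A _
  have hcard : M * A.card = ((A.filter fun y => y - v ∈ P).card : ℝ) := by
    have h1 : M = ((P.filter fun x => v + x ∈ A).card : ℝ) * (A.card : ℝ)⁻¹ := by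
      rw [hM]
      unfold QFR.unif
      rw [← Finset.sum_filter, Finset.sum_const, nsmul_eq_mul]
    have h2 : (P.filter fun x => v + x ∈ A).card = (A.filter fun y => y - v ∈ P).card := by
      refine Finset.card_nbij' (fun x => v + x) (fun y => y - v) ?_ ?_ ?_ ?_
      · intro x hx
        simp only [Finset.coe_filter, Set.mem_setOf_eq] at hx ⊢
        exact ⟨hx.2, by simpa using hx.1⟩
      · intro y hy
        simp only [Finset.coe_filter, Set.mem_setOf_eq] at hy ⊢
        exact ⟨hy.2, by simpa using hy.1⟩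
      · intro x _
        simp
      · intro y _
        simp
    rw [h1, h2, mul_assoc, inv_mul_cancel₀ hc0.ne', mul_one]
  refine ⟨v, ?_⟩
  rw [← hcard]
  refine mul_le_mul_of_nonneg_right (hb.trans ?_) hc0.le
  -- one index
  have hone : ∀ i : (Z.add (Fam.unif A hA)).ι,
      ∑ x ∈ P, (∑ y, (Z.add (Fam.unif A hA)).m i (y + x) * (Z.add (Fam.unif A hA)).m i y) /
        (Z.add (Fam.unif A hA)).p i ≤ M * ∑ y, (Z.add (Fam.unif A hA)).m i y := by
    intro i
    set f : G → ℝ := Z.m i.1 with hf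
    have hf0 : ∀ z, 0 ≤ f z := Z.nn i.1
    have hm : ∀ y, (Z.add (Fam.unif A hA)).m i y = conv f (QFR.unif A) y := fun y => rfl
    have hp : (Z.add (Fam.unif A hA)).p i = ∑ z, f z := by
      show ∑ x, conv f (QFR.unif A) x = _
      rw [sum_conv, sum_unif hA, mul_one]
    have hc : ∀ y, 0 ≤ conv f (QFR.unif A) y := conv_nonneg hf0 (unif_nonneg A)
    have hs : ∀ y, ∑ x ∈ P, conv f (QFR.unif A) (y + x) ≤ M * ∑ z, f z := by
      intro y
      unfold conv
      rw [Finset.sum_comm, Finset.mul_sum]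
      refine Finset.sum_le_sum fun z _ => ?_
      rw [← Finset.mul_sum, mul_comm M]
      refine mul_le_mul_of_nonneg_left ?_ (hf0 z)
      refine le_trans (le_of_eq ?_) (hv (y - z))
      refine Finset.sum_congr rfl fun x _ => ?_
      congr 1
      abel
    simp only [hm]
    rw [hp]
    have hs0 : 0 ≤ ∑ z, f z := Finset.sum_nonneg fun z _ => hf0 z
    rcases hs0.eq_or_lt with h0 | h0
    · rw [← h0]
      simp only [div_zero, Finset.sum_const_zero]
      exact mul_nonneg hM0 (Finset.sum_nonneg fun y _ => hc y)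
    · rw [← Finset.sum_div, div_le_iff₀ h0, Finset.sum_comm]
      have h3 : ∀ y, ∑ x ∈ P, conv f (QFR.unif A) (y + x) * conv f (QFR.unif A) y ≤
          M * (∑ z, f z) * conv f (QFR.unif A) y := by
        intro y
        rw [← Finset.sum_mul]
        exact mul_le_mul_of_nonneg_right (hs y) (hc y)
      refine (Finset.sum_le_sum fun y _ => h3 y).trans (le_of_eq ?_)
      rw [← Finset.mul_sum]
      ring
  unfold Fam.corr
  rw [Finset.sum_comm]
  refine (Finset.sum_le_sum fun i _ => hone i).trans ?_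
  rw [← Finset.mul_sum, (Z.add (Fam.unif A hA)).tot, mul_one]

end Pool.Agent.QFR
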