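import Pool.Agent.W_626a77_h48.HellB

/-!
# The good set of translations
-/

set_option autoImplicit false

namespace Pool.Agent.QFR

open Finset Real

variable {G : Type} [AddCommGroup G] [Fintype G]

omit [AddCommGroup G] in
/-- Markov -/
theorem good_markov {f k : G → ℝ} (h0 : ∀ x, 0 ≤ f x) (h1 : ∑ x, f x = 1)
    (hk : ∀ t, 0 < f t → 0 ≤ k t) {ρ : ℝ} (hρ : 0 < ρ) (h : ∑ t, f t * k t ≤ ρ) (E : Finset G)
    (hE : ∀ t, t ∈ E ↔ 0 < f t ∧ k t ≤ 2 * ρ) : 1 / 2 ≤ ∑ x ∈ E, f x := by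
  classical
  have h2 : ∀ t, (f t - if t ∈ E then f t else 0) * (2 * ρ) ≤ f t * k t := by
    intro t
    rcases (h0 t).eq_or_lt with h3 | h3
    · rw [← h3]
      simp
    · split_ifs with h4
      · rw [sub_self, zero_mul]
        exact mul_nonneg h3.le (hk t h3)
      · rw [sub_zero]
        refine mul_le_mul_of_nonneg_left ?_ h3.le
        by_contra hcon
        push Not at hcon
        exact h4 ((hE t).2 ⟨h3, hcon.le⟩)
  have h3 := (Finset.sum_le_sum fun t (_ : t ∈ Finset.univ) => h2 t).trans h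
  rw [← Finset.sum_mul, Finset.sum_sub_distrib, h1, Finset.sum_ite_mem, Finset.univ_inter] at h3
  have h4 : (1 - ∑ x ∈ E, f x) * 2 ≤ 1 := by
    have h5 : (1 - ∑ x ∈ E, f x) * 2 * ρ ≤ 1 * ρ := by linarith
    exact le_of_mul_le_mul_right h5 hρ
  linarith

/-- translation of the Fourier coefficient -/
theorem ft_translate (m : G → ℝ) (χ : AddChar G ℂ) (t : G) :
    ∑ x, (m (x - t) : ℂ) * χ x = χ t * ft m χ := by
  unfold ft
  rw [Finset.mul_sum]
  refine Fintype.sum_equiv (Equiv.subRight t) _ _ fun x => ?_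
  have h1 : χ x = χ t * χ (x - t) := by
    rw [← AddChar.map_add_eq_mul, add_sub_cancel]
  rw [h1, Equiv.subRight_apply]
  ring

/-- the bound for one value of the conditioning variable -/
theorem good_one (m f : G → ℝ) (hm : ∀ x, 0 ≤ m x) (hf : ∀ x, 0 ≤ f x) (h1 : ∑ x, f x = 1)
    (χ : AddChar G ℂ) {t t' : G} (ht : 0 < f t) (ht' : 0 < f t') :
    ‖ft m χ‖ ^ 2 / (∑ x, m x) * ‖1 - χ (t - t')‖ ^ 2 ≤
      8 * (∑ x, m (x - t) * Real.log (m (x - t) / conv m f x) +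
        ∑ x, m (x - t') * Real.log (m (x - t') / conv m f x)) := by
  obtain ⟨P, hP⟩ : ∃ P, P = ∑ x, m x := ⟨_, rfl⟩
  have hP0 : 0 ≤ P := hP ▸ Finset.sum_nonneg fun x _ => hm x
  have key : ∀ s, 0 < f s → (∑ x, |m (x - s) - conv m f x|) ^ 2 ≤
      4 * P * ∑ x, m (x - s) * Real.log (m (x - s) / conv m f x) := by
    intro s hs
    apply l1_sq_le (fun x => m (x - s)) (conv m f) P (fun x => hm _) (conv_nonneg hm hf)
    · rw [hP]
      exact Fintype.sum_equiv (Equiv.subRight s) _ _ fun x => rfl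
    · rw [sum_conv, h1, mul_one, hP]
    · intro x hx
      have h2 := klt_le_conv hm hf x s
      rw [hx] at h2
      rcases (hm (x - s)).eq_or_lt with h3 | h3
      · exact h3.symm
      · exact absurd (mul_pos h3 hs) (not_lt.2 h2)
  have k1 := key t ht
  have k2 := key t' ht'
  have n1 := klt_one_nonneg m f hm hf h1 t ht
  have n2 := klt_one_nonneg m f hm hf h1 t' ht'
  rw [← hP]
  rcases hP0.eq_or_lt with h0 | h0
  · rw [← h0, div_zero, zero_mul]
    linarith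
  · rw [div_mul_eq_mul_div, div_le_iff₀ h0]
    have e1 : ‖ft m χ‖ * ‖1 - χ (t - t')‖ ≤
        ∑ x, |m (x - t) - conv m f x| + ∑ x, |m (x - t') - conv m f x| := by
      have e2 : ‖ft m χ‖ * ‖1 - χ (t - t')‖ = ‖∑ x, ((m (x - t) - m (x - t') : ℝ) : ℂ) * χ x‖ := by
        have e3 : ∑ x, ((m (x - t) - m (x - t') : ℝ) : ℂ) * χ x = (χ t - χ t') * ft m χ := by
          rw [sub_mul, ← ft_translate, ← ft_translate, ← Finset.sum_sub_distrib]
          refine Finset.sum_congr rfl fun x _ => ?_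
          push_cast
          ring
        have e4 : χ t - χ t' = -(χ t' * (1 - χ (t - t'))) := by
          have : χ t = χ t' * χ (t - t') := by
            rw [← AddChar.map_add_eq_mul, add_sub_cancel]
          rw [this]
          ring
        rw [e3, e4, norm_mul, norm_neg, norm_mul, AddChar.norm_apply, one_mul, mul_comm]
      rw [e2, ← Finset.sum_add_distrib]
      refine (norm_sum_le _ _).trans (Finset.sum_le_sum fun x _ => ?_)
      rw [norm_mul, AddChar.norm_apply, mul_one, Complex.norm_real, Real.norm_eq_abs]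
      have e5 : m (x - t) - m (x - t') = (m (x - t) - conv m f x) - (m (x - t') - conv m f x) := by
        ring
      rw [e5]
      exact abs_sub _ _
    have e6 : ‖ft m χ‖ ^ 2 * ‖1 - χ (t - t')‖ ^ 2 = (‖ft m χ‖ * ‖1 - χ (t - t')‖) ^ 2 := by ring
    rw [e6]
    have e7 := pow_le_pow_left₀ (mul_nonneg (norm_nonneg _) (norm_nonneg _)) e1 2
    have e8 := sq_nonneg (∑ x, |m (x - t) - conv m f x| - ∑ x, |m (x - t') - conv m f x|)
    linarith

/-- GOOD SET OF TRANSLATIONS.  `E = {t | 0 < f t, klt Y f t ≤ 2ρ}` has probability `≥ 1/2`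
(Markov).  For `t, t' ∈ E` and a character `χ`:
`‖ft (Y.m z) χ‖ ‖1 - χ(t-t')‖ = ‖Σ_x (m(x-t) - m(x-t')) χ(x)‖ ≤ ‖τ_t m - c‖₁ + ‖τ_t' m - c‖₁`
`≤ 2√(p_z KL_z(t)) + 2√(p_z KL_z(t'))`, square: `≤ 8 p_z (KL_z(t)+KL_z(t'))`, divide by `p_z` and
sum over `z`. -/
theorem exists_good_set (Y : Fam G) (f : G → ℝ) (h0 : ∀ x, 0 ≤ f x) (h1 : ∑ x, f x = 1)
    {ρ : ℝ} (hρ : 0 < ρ) (h : (Y.add (Fam.single f h0 h1)).H - Y.H ≤ ρ) :
    ∃ E : Finset G, 1 / 2 ≤ ∑ x ∈ E, f x ∧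
      ∀ t ∈ E, ∀ t' ∈ E, ∀ χ : AddChar G ℂ, Y.spec χ * ‖1 - χ (t - t')‖ ^ 2 ≤ 32 * ρ := by
  classical
  have hE : ∀ t, t ∈ Finset.univ.filter (fun t => 0 < f t ∧ klt Y f t ≤ 2 * ρ) ↔
      0 < f t ∧ klt Y f t ≤ 2 * ρ := by
    intro t
    simp
  refine ⟨Finset.univ.filter (fun t => 0 < f t ∧ klt Y f t ≤ 2 * ρ), ?_, ?_⟩
  · exact good_markov h0 h1 (klt_nonneg Y f h0 h1) hρ ((sum_klt Y f h0 h1).le.trans h) _ hE
  · intro t ht t' ht' χ
    rw [hE] at ht ht'
    have h2 : Y.spec χ * ‖1 - χ (t - t')‖ ^ 2 ≤ 8 * (klt Y f t + klt Y f t') := by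
      unfold Fam.spec klt
      rw [Finset.sum_mul, ← Finset.sum_add_distrib, Finset.mul_sum]
      exact Finset.sum_le_sum fun z _ => good_one (Y.m z) f (Y.nn z) h0 h1 χ ht.1 ht'.1
    linarith [ht.2, ht'.2]

end Pool.Agent.QFR
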