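import Pool.Agent.W_626a77_h48.FamB

/-!
# Selecting a fibre
-/

set_option autoImplicit false

namespace Pool.Agent.QFR

open Finset Real

variable {G : Type} [AddCommGroup G] [Fintype G]

omit [AddCommGroup G] in
lemma select_eq_zero (T : Fam G) {z : T.ι} (hz : T.p z = 0) (x : G) : T.m z x = 0 :=
  (Finset.sum_eq_zero_iff_of_nonneg (fun x _ => T.nn z x)).1 hz x (Finset.mem_univ x)

lemma select_smul (T : Fam G) (z : T.ι) :
    T.m z = fun x => T.p z * (T.m z x / T.p z) := by
  funext x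
  rcases eq_or_ne (T.p z) 0 with h | h
  · rw [select_eq_zero T h x, h, zero_mul]
  · field_simp

lemma select_conv (f : G → ℝ) (T : Fam G) (z : T.ι) :
    ent (conv f (T.m z)) = T.p z * ent (conv f fun x => T.m z x / T.p z) := by
  rw [← ent_smul]
  congr 1
  funext x
  conv_lhs => rw [select_smul T z]
  unfold conv
  rw [Finset.mul_sum]
  refine Finset.sum_congr rfl fun y _ => ?_
  ring

lemma select_ent (T : Fam G) (z : T.ι) :
    ent (T.m z) = T.p z * ent (fun x => T.m z x / T.p z) := by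
  rw [← ent_smul]
  congr 1
  exact select_smul T z

lemma select_add_H (Z T : Fam G) :
    (Z.add T).H = ∑ z, T.p z * ∑ i, ent (conv (Z.m i) fun x => T.m z x / T.p z) := by
  have h : (Z.add T).H = ∑ t : Z.ι × T.ι, ent (conv (Z.m t.1) (T.m t.2)) := rfl
  rw [h, Fintype.sum_prod_type_right]
  refine Finset.sum_congr rfl fun z _ => ?_
  rw [Finset.mul_sum]
  exact Finset.sum_congr rfl fun i _ => select_conv _ T z

lemma select_single_H (Z : Fam G) (f : G → ℝ) (h0 : ∀ x, 0 ≤ f x) (h1 : ∑ x, f x = 1) :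
    (Z.add (Fam.single f h0 h1)).H = ∑ i, ent (conv (Z.m i) f) := by
  have h : (Z.add (Fam.single f h0 h1)).H = ∑ t : Z.ι × Unit, ent (conv (Z.m t.1) f) := rfl
  rw [h, Fintype.sum_prod_type]
  simp

/-- SELECTION.  `T.law z = T.m z / T.p z`.  By `ent_smul` and bilinearity of `conv`,
`(Z.add T).H = ∑_z T.p z * H(Z + law z)`, `T.H = ∑_z T.p z * H(law z)`, `∑_z T.p z = 1`.
The average over `z` of `(H(Z + law z) - H(law z))/c + (H(Y + law z) - H(Y))/c'` is `≤ 2`, both
terms are nonnegative (`H_le_add_left/right`), so for some `z` with `T.p z > 0` both are `≤ 2`. -/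
theorem select (T Z Y : Fam G) {c c' : ℝ} (hc : 0 < c) (hc' : 0 < c')
    (h1 : (Z.add T).H - T.H ≤ c) (h2 : (Y.add T).H - Y.H ≤ c') :
    ∃ (f : G → ℝ) (h0 : ∀ x, 0 ≤ f x) (hs : ∑ x, f x = 1),
      (∃ z, ∀ x, f x ≠ 0 → T.m z x ≠ 0) ∧
      (Z.add (Fam.single f h0 hs)).H - (Fam.single f h0 hs).H ≤ 2 * c ∧
      (Y.add (Fam.single f h0 hs)).H - Y.H ≤ 2 * c' := by
  classical
  have hp0 : ∀ z, 0 ≤ T.p z := fun z => Finset.sum_nonneg fun x _ => T.nn z x
  have hp1 : ∑ z, T.p z = 1 := T.tot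
  have hl0 : ∀ z x, 0 ≤ T.m z x / T.p z := fun z x => div_nonneg (T.nn z x) (hp0 z)
  have hl1 : ∀ z, T.p z ≠ 0 → ∑ x, T.m z x / T.p z = 1 := by
    intro z hz
    rw [← Finset.sum_div]
    exact div_self hz
  set A : T.ι → ℝ := fun z =>
    ∑ i, ent (conv (Z.m i) fun x => T.m z x / T.p z) - ent (fun x => T.m z x / T.p z) with hA
  set B : T.ι → ℝ := fun z =>
    ∑ i, ent (conv (Y.m i) fun x => T.m z x / T.p z) - Y.H with hB
  have hTH : T.H = ∑ z, T.p z * ent (fun x => T.m z x / T.p z) :=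
    Finset.sum_congr rfl fun z _ => select_ent T z
  have hsA : ∑ z, T.p z * A z ≤ c := by
    have : ∑ z, T.p z * A z = (Z.add T).H - T.H := by
      rw [select_add_H, hTH, ← Finset.sum_sub_distrib]
      exact Finset.sum_congr rfl fun z _ => by rw [hA]; ring
    rw [this]
    exact h1
  have hsB : ∑ z, T.p z * B z ≤ c' := by
    have : ∑ z, T.p z * B z = (Y.add T).H - Y.H := by
      rw [select_add_H]
      have h3 : Y.H = ∑ z, T.p z * Y.H := by rw [← Finset.sum_mul, hp1, one_mul]
      conv_rhs => rw [h3]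
      rw [← Finset.sum_sub_distrib]
      exact Finset.sum_congr rfl fun z _ => by rw [hB]; ring
    rw [this]
    exact h2
  have hex : ∃ z, 0 < T.p z ∧ A z / c + B z / c' ≤ 2 := by
    by_contra hcon
    push Not at hcon
    obtain ⟨z₀, hz₀⟩ : ∃ z, 0 < T.p z := by
      by_contra h
      push Not at h
      have : ∑ z, T.p z ≤ 0 := Finset.sum_nonpos fun z _ => h z
      rw [hp1] at this
      linarith
    have hlt : ∑ z, T.p z * 2 < ∑ z, T.p z * (A z / c + B z / c') := by
      refine Finset.sum_lt_sum (fun z _ => ?_) ⟨z₀, Finset.mem_univ _, ?_⟩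
      · rcases (hp0 z).eq_or_lt with h | h
        · rw [← h, zero_mul, zero_mul]
        · exact (mul_le_mul_of_nonneg_left (hcon z h).le h.le)
      · exact mul_lt_mul_of_pos_left (hcon z₀ hz₀) hz₀
    have h4 : ∑ z, T.p z * (A z / c + B z / c') =
        (∑ z, T.p z * A z) / c + (∑ z, T.p z * B z) / c' := by
      rw [Finset.sum_div, Finset.sum_div, ← Finset.sum_add_distrib]
      exact Finset.sum_congr rfl fun z _ => by ring
    rw [h4, ← Finset.sum_mul, hp1] at hlt
    have h5 : (∑ z, T.p z * A z) / c ≤ 1 := by rw [div_le_one hc]; exact hsA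
    have h6 : (∑ z, T.p z * B z) / c' ≤ 1 := by rw [div_le_one hc']; exact hsB
    linarith
  obtain ⟨z, hz, hzle⟩ := hex
  have hzA : 0 ≤ A z := by
    have := H_le_add_right Z (Fam.single (fun x => T.m z x / T.p z) (hl0 z) (hl1 z hz.ne'))
    rw [select_single_H] at this
    have h7 : (Fam.single (fun x => T.m z x / T.p z) (hl0 z) (hl1 z hz.ne')).H =
        ent (fun x => T.m z x / T.p z) := by
      show ∑ _i : Unit, ent _ = _
      simp [Fam.single]
    rw [h7] at this
    rw [hA]
    linarith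
  have hzB : 0 ≤ B z := by
    have := H_le_add_left Y (Fam.single (fun x => T.m z x / T.p z) (hl0 z) (hl1 z hz.ne'))
    rw [select_single_H] at this
    rw [hB]
    linarith
  refine ⟨fun x => T.m z x / T.p z, hl0 z, hl1 z hz.ne', ⟨z, fun x hx h => hx ?_⟩, ?_, ?_⟩
  · show T.m z x / T.p z = 0
    rw [h, zero_div]
  · rw [select_single_H]
    have h7 : (Fam.single (fun x => T.m z x / T.p z) (hl0 z) (hl1 z hz.ne')).H =
        ent (fun x => T.m z x / T.p z) := by
      show ∑ _i : Unit, ent _ = _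
      simp [Fam.single]
    rw [h7]
    have h8 : A z / c ≤ 2 := by
      have : 0 ≤ B z / c' := div_nonneg hzB hc'.le
      linarith
    rw [div_le_iff₀ hc] at h8
    exact h8
  · rw [select_single_H]
    have h8 : B z / c' ≤ 2 := by
      have : 0 ≤ A z / c := div_nonneg hzA hc.le
      linarith
    rw [div_le_iff₀ hc'] at h8
    exact h8

end Pool.Agent.QFR
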