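import Pool.Agent.W_626a77_h48.Defs

/-!
# Supports
-/

set_option autoImplicit false

namespace Pool.Agent.QFR

open Finset Real
open scoped Pointwise

variable {G : Type} [AddCommGroup G] [Fintype G] [DecidableEq G]

omit [Fintype G] in
theorem add_mem_nsmul_add {A : Finset G} {m n : ℕ} {u v : G} (hu : u ∈ m • A) (hv : v ∈ n • A) :
    u + v ∈ (m + n) • A := by
  rw [add_nsmul]
  exact Finset.add_mem_add hu hv

theorem suppIn_add {a b : Fam G} {A : Finset G} {m n : ℕ} (ha : a.SuppIn (m • A : Finset G))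
    (hb : b.SuppIn (n • A : Finset G)) : (a.add b).SuppIn ((m + n) • A : Finset G) := by
  intro i x hx
  obtain ⟨y, -, hy⟩ := Finset.exists_ne_zero_of_sum_ne_zero
    (show ∑ y, a.m i.1 y * b.m i.2 (x - y) ≠ 0 from hx)
  have h1 := Finset.mem_coe.1 (ha i.1 y (left_ne_zero_of_mul hy))
  have h2 := Finset.mem_coe.1 (hb i.2 (x - y) (right_ne_zero_of_mul hy))
  have h3 := add_mem_nsmul_add h1 h2
  rw [add_sub_cancel] at h3
  exact Finset.mem_coe.2 h3

/-- `a.SuppIn B`: all values of the family lie in `B`.  `conv f g x ≠ 0` implies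
`x = y + (x-y)` with `f y ≠ 0`, `g (x-y) ≠ 0`; the fibre operation does not enlarge supports. -/
theorem suppIn_word (A : Finset G) (hA : A.Nonempty) (w : List Bool) :
    ((Fam.unif A hA).word w).SuppIn ((2 ^ (w.count true)) • A : Finset G) := by
  induction w with
  | nil =>
    intro i x hx
    have hx' : unif A x ≠ 0 := hx
    have h1 : x ∈ A := by
      by_contra h
      exact hx' (by rw [unif, if_neg h])
    rw [List.count_nil, pow_zero, one_nsmul]
    exact Finset.mem_coe.2 h1
  | cons b w ih =>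
    cases b with
    | true =>
      rw [List.count_cons_self, pow_succ, mul_two]
      exact suppIn_add ih ih
    | false =>
      rw [List.count_cons_of_ne (by decide)]
      intro i x hx
      exact ih i.1 x (left_ne_zero_of_mul
        (show ((Fam.unif A hA).word w).m i.1 x * ((Fam.unif A hA).word w).m i.2.1 (i.2.2 - x) ≠ 0
          from hx))

theorem suppIn_S (a : Fam G) (A : Finset G) (M : ℕ) (h : a.SuppIn (M • A : Finset G)) (n : ℕ) :
    (a.S n).SuppIn ((2 ^ n * M) • A : Finset G) := by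
  induction n with
  | zero => simpa [Fam.S] using h
  | succ n ih =>
    rw [pow_succ, mul_two, add_mul]
    exact suppIn_add ih ih

/-- `corr x ≠ 0` implies `x = (y + x) - y` with `y + x, y` in the support of some `m i`. -/
theorem corr_supp (Z : Fam G) (A : Finset G) (M L : ℕ) (hM : Z.SuppIn (M • A : Finset G))
    (g : G → ℝ) (g0 : ∀ x, 0 ≤ g x) (g1 : ∑ x, g x = 1) (hg : ∀ x, g x ≠ 0 → x ∈ L • A)
    (x : G) (hx : (Z.add (Fam.single g g0 g1)).corr x ≠ 0) :
    ∃ u ∈ (M + L) • A, ∃ v ∈ (M + L) • A, x = u - v := by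
  have hs : (Z.add (Fam.single g g0 g1)).SuppIn ((M + L) • A : Finset G) :=
    suppIn_add hM fun _ x hx => Finset.mem_coe.2 (hg x hx)
  unfold Fam.corr at hx
  obtain ⟨i, -, hi⟩ := Finset.exists_ne_zero_of_sum_ne_zero hx
  have h1 : ∑ y, (Z.add (Fam.single g g0 g1)).m i (y + x) *
      (Z.add (Fam.single g g0 g1)).m i y ≠ 0 := by
    intro h
    rw [h, zero_div] at hi
    exact hi rfl
  obtain ⟨y, -, hy⟩ := Finset.exists_ne_zero_of_sum_ne_zero h1
  exact ⟨y + x, Finset.mem_coe.1 (hs i _ (left_ne_zero_of_mul hy)), y,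
    Finset.mem_coe.1 (hs i _ (right_ne_zero_of_mul hy)), by abel⟩

/-- adding the same element to both -/
theorem diff_mono (A : Finset G) (hA : A.Nonempty) {m n : ℕ} (h : m ≤ n) (x : G)
    (hx : ∃ u ∈ m • A, ∃ v ∈ m • A, x = u - v) : ∃ u ∈ n • A, ∃ v ∈ n • A, x = u - v := by
  obtain ⟨k, rfl⟩ := Nat.exists_eq_add_of_le h
  obtain ⟨u, hu, v, hv, rfl⟩ := hx
  obtain ⟨w, hw⟩ := hA.nsmul (n := k)
  exact ⟨u + w, add_mem_nsmul_add hu hw, v + w, add_mem_nsmul_add hv hw, by abel⟩

end Pool.Agent.QFR
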