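import Pool.Agent.W_MP_626a77_h55.Reg
import Pool.Agent.W_MP_626a77_h55.SuppM
import Pool.Agent.W_MP_626a77_h55.Params
import Pool.Agent.W_626a77_h48.Select
import Pool.Agent.W_626a77_h48.FamU
import Pool.Agent.W_626a77_h48.EventA
import Pool.Agent.W_626a77_h48.EventB
import Pool.Agent.W_626a77_h48.HellC
import Pool.Agent.W_626a77_h48.FourB
import Pool.Agent.W_626a77_h48.FourC
import Pool.Agent.W_626a77_h48.FourD
import Pool.Agent.W_626a77_h48.Supp
import Pool.Agent.W_626a77_h27.CoreNum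

/-!
# The core theorem: quasi-optimal Bogolyubov-Ruzsa type statement in a finite abelian group

Proof.  `a = Fam.unif A hA`, `a.H = log |A| =: L` (`H_unif`), `(a.add a).H - a.H ≤ κ`
(`H_unif_add_unif_le`).  `n = 10 ν`, `B = κ ν`; `T` from `exists_reg_min` (helper55):
`L - 20 B ≤ T.H ≤ L`, `c2 = 160 B ≥ (T.S n).H - T.H`, `(b.add a).H ≤ (b.add T).H + 20 B`.
`j`, `n₁` from `params`: `n₁ + j + 1 = 10 ν`, `1000 B ≤ 2 ^ j`, `256 c2 16 ^ ν ≤ 2 ^ n₁`.
`Y = T.S n₁`, `Z = Y.S j = T.S (n-1)` (`S_S`).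
* `(Z.add T).H - T.H ≤ (T.S n).H - T.H ≤ c2` (`H_add_S_mono`), and
  `(Y.add T).H - Y.H ≤ c2 / 2^n₁ =: c'` (`conc`, `H_S_mono`).
* `select`: law `f`, `q = (Z+f).H - H(f) ≤ 2 c2`, `(Y+f).H - Y.H ≤ 2c' =: ρ ≤ 1`; also
  `(Z+f).H - Z.H ≤ ρ` (`H_S_add_sub_le`).
* `exists_good_set` for `Y, f, ρ`: set `E`, `1/2 ≤ f(E)`; `Λ = {χ | 1/4 ≤ Y.spec χ}`; for
  `t, t' ∈ E`, `χ ∈ Λ`: `‖1-χ(t-t')‖² ≤ 128 ρ ≤ 256 c2/2^n₁ ≤ 16^{-ν}`, so `t - t' ∈ Boh Λ (1/4)^ν`,
  `E.card ≤ |Boh Λ (1/4)^ν|`; `log_card_event_ge`: `Z.H - 4 c2 - 2 log 2 ≤ log |E|`.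
* `corr_lower` with `g = unif A`: `corr 0 ≥ exp(-(Z+a).H) ≥ exp(-L-180 B)` (`exp_neg_H_le_corr`),
  `Σ g² = 1/|A| = exp(-L)`, `6 (1/4)^(2^j) ≤ exp(-180 B)`: so `corr x ≥ 1/4 exp(-L-180B)` on
  `Boh Λ 1`; this gives the support statement (`corr_supp`, `suppIn_of_refines`, `suppIn_S`,
  `diff_mono` with `ℓ = 2^(10ν)`) and the dense piece (`exists_dense_piece`).
* `typical` with `q = 2c2`, `ρ`: law `g`, `g ≤ 2 exp(-H(f) + 2(2c2+ρ+1)) ≤ 2 exp(-Z.H+6c2+4)`,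
  `(Z+g).H ≤ Z.H + 2`; `corr_lower`: `corr_g x ≥ 1/4 corr_g 0 ≥ 1/4 exp(-Z.H-2)` on `Boh Λ 1`
  as `r log 4 ≥ log 12 + 6c2 + 6`, `r = 2^j`; with `sum_corr`: `|Boh Λ 1| ≤ 4 exp(Z.H+2)`.
-/

set_option autoImplicit false

namespace Pool.Agent.QFR

open Finset Real
open scoped Pointwise

variable {G : Type} [AddCommGroup G] [Fintype G]

/-- `corr` is at least a quarter of `corr 0` on the large Bohr set. -/
theorem core_corr (Y : Fam G) (j : ℕ) (g : G → ℝ) (g0 : ∀ x, 0 ≤ g x) (g1 : ∑ x, g x = 1)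
    {e S : ℝ} (hS : ∑ x, g x ^ 2 ≤ S)
    (he : ((Y.S j).add (Fam.single g g0 g1)).H ≤ e)
    (h : 6 * (1 / 4) ^ (2 ^ j) * S ≤ exp (-e)) [DecidablePred fun χ : AddChar G ℂ => 1 / 4 ≤ Y.spec χ]
    (x : G) (hx : x ∈ Boh (Finset.univ.filter fun χ : AddChar G ℂ => 1 / 4 ≤ Y.spec χ) 1) :
    1 / 4 * exp (-e) ≤ ((Y.S j).add (Fam.single g g0 g1)).corr x := by
  have h1 := corr_lower Y j g g0 g1 x (by convert hx)
  have h2 := exp_neg_H_le_corr ((Y.S j).add (Fam.single g g0 g1))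
  have h3 : exp (-e) ≤ exp (-((Y.S j).add (Fam.single g g0 g1)).H) := Real.exp_le_exp.2 (by linarith)
  have h4 : (1 / 4 : ℝ) ^ (2 ^ j) * ∑ x, g x ^ 2 ≤ (1 / 4 : ℝ) ^ (2 ^ j) * S :=
    mul_le_mul_of_nonneg_left hS (by positivity)
  linarith

/-- The Bohr set contains the translate of the good set. -/
theorem core_boh (Λ : Finset (AddChar G ℂ)) (η : ℝ) (E : Finset G)
    (h : ∀ t ∈ E, ∀ t' ∈ E, ∀ χ ∈ Λ, ‖1 - χ (t - t')‖ ≤ η) : E.card ≤ (Boh Λ η).card := by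
  classical
  rcases E.eq_empty_or_nonempty with rfl | ⟨t', ht'⟩
  · simp
  · refine Finset.card_le_card_of_injOn (fun t => t - t') ?_ ?_
    · intro t ht
      simp only [Boh, Finset.coe_filter, Finset.mem_univ, true_and, Set.mem_ofPred_eq]
      exact h t ht t' ht'
    · intro t _ s _ hts
      exact sub_left_injective hts

theorem core_boh_mono (Λ : Finset (AddChar G ℂ)) {η η' : ℝ} (h : η ≤ η') :
    Boh Λ η ⊆ Boh Λ η' := by
  intro x hx
  simp only [Boh, Finset.mem_filter, Finset.mem_univ, true_and] at hx ⊢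
  exact fun χ hχ => (hx χ hχ).trans h

/-- The size of the two Bohr sets. -/
theorem core_sets (T : Fam G) (n j n₁ ν : ℕ) (hn : n = n₁ + j + 1) {c2 : ℝ} (hc2 : 1 ≤ c2)
    (hT : (T.S n).H - T.H ≤ c2) (hbig : 256 * c2 * 16 ^ ν ≤ (2 : ℝ) ^ n₁)
    (hj : 6 * c2 + 9 ≤ (2 : ℝ) ^ j) (Λ : Finset (AddChar G ℂ))
    (hΛ : ∀ χ, χ ∈ Λ ↔ 1 / 4 ≤ (T.S n₁).spec χ) :
    1 / 4 * exp (((T.S n₁).S j).H - 4 * c2) ≤ (Boh Λ ((1 / 4) ^ ν)).card ∧
      ((Boh Λ 1).card : ℝ) ≤ 4 * exp (((T.S n₁).S j).H + 2) := by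
  classical
  obtain ⟨Y, hY⟩ : ∃ Y, Y = T.S n₁ := ⟨_, rfl⟩
  obtain ⟨Z, hZ⟩ : ∃ Z, Z = Y.S j := ⟨_, rfl⟩
  have hZ' : Z = T.S (n₁ + j) := by rw [hZ, hY, S_S]
  have hc0 : 0 < c2 := by linarith
  have h2n : (0 : ℝ) < 2 ^ n₁ := by positivity
  -- the two doubling inequalities
  have d1 : (Z.add T).H - T.H ≤ c2 := by
    have h1 := H_add_S_mono Z T (Nat.zero_le (n₁ + j))
    have h2 : Z.add (T.S (n₁ + j)) = T.S n := by
      rw [hn, hZ']
      rfl
    have h3 : Z.add (T.S 0) = Z.add T := rfl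
    rw [h2, h3] at h1
    linarith
  have d2 : (Y.add T).H - Y.H ≤ c2 / 2 ^ n₁ := by
    have h1 := conc T n₁
    have h2 : (T.S (n₁ + 1)).H ≤ (T.S n).H := H_S_mono T (by omega)
    rw [le_div_iff₀ h2n, hY, mul_comm]
    linarith
  obtain ⟨f, h0, hs, -, s1, s2⟩ := select T Z Y hc0 (by positivity : 0 < c2 / 2 ^ n₁) d1 d2
  obtain ⟨ρ, hρ⟩ : ∃ ρ, ρ = 2 * (c2 / 2 ^ n₁) := ⟨_, rfl⟩
  rw [← hρ] at s2
  have hρ0 : 0 < ρ := by rw [hρ]; positivity
  have hρ16 : 128 * ρ * 16 ^ ν ≤ 1 := by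
    rw [hρ]
    have : 128 * (2 * (c2 / 2 ^ n₁)) * 16 ^ ν = 256 * c2 * 16 ^ ν / 2 ^ n₁ := by ring
    rw [this]
    exact (div_le_one h2n).2 hbig
  have h16 : (1 : ℝ) ≤ 16 ^ ν := one_le_pow₀ (by norm_num)
  have hρ1 : ρ ≤ 1 := by
    have : 128 * ρ * 1 ≤ 128 * ρ * 16 ^ ν := mul_le_mul_of_nonneg_left h16 (by positivity)
    linarith
  obtain ⟨F, hF⟩ : ∃ F, F = Fam.single f h0 hs := ⟨_, rfl⟩
  rw [← hF] at s1 s2
  constructor
  · -- lower bound
    obtain ⟨E, hE, hE2⟩ := exists_good_set Y f h0 hs hρ0 (by rw [← hF]; exact s2)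
    have k1 := log_card_event_ge Z f h0 hs E hE
    rw [← hF] at k1
    have hEne : E.Nonempty := by
      rw [Finset.nonempty_iff_ne_empty]
      rintro rfl
      rw [Finset.sum_empty] at hE
      norm_num at hE
    have hE0 : (0 : ℝ) < E.card := by exact_mod_cast hEne.card_pos
    have k2 : exp (Z.H - 4 * c2 - 2 * Real.log 2) ≤ E.card := by
      calc exp (Z.H - 4 * c2 - 2 * Real.log 2) ≤ exp (Real.log E.card) :=
            Real.exp_le_exp.2 (by linarith)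
        _ = E.card := Real.exp_log hE0
    have k3 : exp (Z.H - 4 * c2 - 2 * Real.log 2) = 1 / 4 * exp (Z.H - 4 * c2) := by
      rw [Real.exp_sub, two_mul, Real.exp_add, Real.exp_log (by norm_num)]
      ring
    have k4 : E.card ≤ (Boh Λ ((1 / 4) ^ ν)).card := by
      refine core_boh Λ _ E fun t ht t' ht' χ hχ => ?_
      have k5 := hE2 t ht t' ht' χ
      have k6 : 1 / 4 ≤ Y.spec χ := by rw [hY]; exact (hΛ χ).1 hχ
      have k7 : 1 / 4 * ‖1 - χ (t - t')‖ ^ 2 ≤ Y.spec χ * ‖1 - χ (t - t')‖ ^ 2 :=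
        mul_le_mul_of_nonneg_right k6 (sq_nonneg _)
      have k8 : ((1 / 4 : ℝ) ^ ν) ^ 2 = 1 / 16 ^ ν := by
        rw [← pow_mul, mul_comm, pow_mul, one_div (16 ^ ν), ← inv_pow]
        norm_num
      refine (sq_le_sq₀ (norm_nonneg _) (by positivity)).1 ?_
      rw [k8, le_div_iff₀ (by positivity)]
      have k9 : ‖1 - χ (t - t')‖ ^ 2 * 16 ^ ν ≤ 128 * ρ * 16 ^ ν :=
        mul_le_mul_of_nonneg_right (by linarith) (by positivity)
      linarith
    have k5 : (E.card : ℝ) ≤ (Boh Λ ((1 / 4) ^ ν)).card := by exact_mod_cast k4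
    rw [← hY, ← hZ]
    linarith
  · -- upper bound
    have t0 : (Z.add F).H - Z.H ≤ ρ := by
      rw [hZ]
      exact (H_S_add_sub_le Y F j).trans s2
    obtain ⟨g, g0, g1, t1, t2, -⟩ := typical Z f h0 hs (q := 2 * c2) (ρ := ρ)
      (by rw [← hF]; exact s1) (by rw [← hF]; exact t0)
    rw [← hF] at t1
    have t3 := H_le_add_left Z F
    have t4 : ∀ x, g x ≤ 2 * exp (-Z.H + 6 * c2 + 4) := by
      intro x
      refine (t1 x).trans ?_
      exact mul_le_mul_of_nonneg_left (Real.exp_le_exp.2 (by linarith)) (by norm_num)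
    have t5 : ∑ x, g x ^ 2 ≤ 2 * exp (-Z.H + 6 * c2 + 4) := by
      calc ∑ x, g x ^ 2 ≤ ∑ x, 2 * exp (-Z.H + 6 * c2 + 4) * g x := by
            refine Finset.sum_le_sum fun x _ => ?_
            rw [sq]
            exact mul_le_mul_of_nonneg_right (t4 x) (g0 x)
        _ = 2 * exp (-Z.H + 6 * c2 + 4) := by rw [← Finset.mul_sum, g1, mul_one]
    have t6 : 6 * (1 / 4 : ℝ) ^ (2 ^ j) * (2 * exp (-Z.H + 6 * c2 + 4)) ≤ exp (-(Z.H + 2)) := by
      have t7 := core_exp (2 ^ j) (6 * c2 + 6) (by push_cast; linarith)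
      have t8 : exp (-(6 * c2 + 6)) * exp (-Z.H + 6 * c2 + 4) = exp (-(Z.H + 2)) := by
        rw [← Real.exp_add]
        ring_nf
      rw [← t8]
      calc 6 * (1 / 4 : ℝ) ^ (2 ^ j) * (2 * exp (-Z.H + 6 * c2 + 4))
          = 12 * (1 / 4 : ℝ) ^ (2 ^ j) * exp (-Z.H + 6 * c2 + 4) := by ring
        _ ≤ _ := mul_le_mul_of_nonneg_right t7 (Real.exp_pos _).le
    have t7 : ∀ x ∈ Boh Λ 1, 1 / 4 * exp (-(Z.H + 2)) ≤ (Z.add (Fam.single g g0 g1)).corr x := by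
      intro x hx
      have hΛ' : Λ = Finset.univ.filter fun χ : AddChar G ℂ => 1 / 4 ≤ Y.spec χ := by
        ext χ
        rw [hΛ, hY, Finset.mem_filter]
        simp
      rw [hΛ'] at hx
      rw [hZ] at t2 t6 ⊢
      exact core_corr Y j g g0 g1 (by rw [← hZ]; exact t5) (by linarith) t6 x hx
    have t8 : ∑ x ∈ Boh Λ 1, (Z.add (Fam.single g g0 g1)).corr x ≤ 1 := by
      rw [← sum_corr (Z.add (Fam.single g g0 g1))]
      exact Finset.sum_le_sum_of_subset_of_nonneg (Finset.subset_univ _)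
        fun x _ _ => corr_nonneg _ x
    have t9 : ((Boh Λ 1).card : ℝ) * (1 / 4 * exp (-(Z.H + 2))) ≤ 1 := by
      refine le_trans ?_ t8
      rw [← nsmul_eq_mul]
      exact Finset.card_nsmul_le_sum _ _ _ t7
    have t10 : exp (-(Z.H + 2)) * exp (Z.H + 2) = 1 := by
      rw [← Real.exp_add]
      simp
    rw [← hY, ← hZ]
    have t11 := mul_le_mul_of_nonneg_right t9 (Real.exp_pos (Z.H + 2)).le
    have t12 : ((Boh Λ 1).card : ℝ) * (1 / 4 * exp (-(Z.H + 2))) * exp (Z.H + 2) =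
        1 / 4 * (Boh Λ 1).card := by
      calc _ = ((Boh Λ 1).card : ℝ) * (1 / 4) * (exp (-(Z.H + 2)) * exp (Z.H + 2)) := by ring
        _ = _ := by rw [t10]; ring
    rw [t12] at t11
    linarith

omit [AddCommGroup G] in
theorem core_unif_sq [DecidableEq G] (A : Finset G) (hA : A.Nonempty) :
    ∑ x, QFR.unif A x ^ 2 ≤ exp (-Real.log A.card) := by
  have hcard : (0 : ℝ) < A.card := by exact_mod_cast hA.card_pos
  rw [Real.exp_neg, Real.exp_log hcard]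
  have h1 : ∀ x, QFR.unif A x ^ 2 = (A.card : ℝ)⁻¹ * QFR.unif A x := by
    intro x
    unfold QFR.unif
    split_ifs
    · ring
    · ring
  simp only [h1]
  rw [← Finset.mul_sum, sum_unif hA, mul_one]

/-- The core theorem. -/
theorem core (κ : ℝ) (hκ : 1 ≤ κ) (ν : ℕ) (hν : 10 * (1 + Real.log κ) ≤ ν)
    (G : Type) [AddCommGroup G] [Fintype G] [DecidableEq G] (A : Finset G)
    (hA : A.Nonempty) (hAA : (((A + A).card : ℕ) : ℝ) ≤ exp κ * A.card) :
      ∃ Λ : Finset (AddChar G ℂ),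
        ((Boh Λ 1).card : ℝ) ≤ exp (1000 * κ * ν) * (Boh Λ ((1 / 4) ^ ν)).card ∧
        exp (-(1000 * κ * ν)) * A.card ≤ (Boh Λ ((1 / 4) ^ ν)).card ∧
        ((Boh Λ 1).card : ℝ) ≤ exp (1000 * κ * ν) * A.card ∧
        (∃ v : G, exp (-(1000 * κ * ν)) * A.card ≤
          ((A.filter fun y => y - v ∈ Boh Λ ((1 / 4) ^ ν)).card : ℝ)) ∧
        ∀ x ∈ Boh Λ 1, ∃ u ∈ (2 ^ (10 * ν)) • A, ∃ v ∈ (2 ^ (10 * ν)) • A, x = u - v := by
  have hlog := Real.log_nonneg hκ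
  have h10 : 10 ≤ (ν : ℝ) := by linarith
  obtain ⟨B, hB⟩ : ∃ B, B = κ * ν := ⟨_, rfl⟩
  have hB10 : 10 ≤ B := by
    rw [hB]
    calc (10 : ℝ) = 1 * 10 := by norm_num
      _ ≤ κ * ν := mul_le_mul hκ h10 (by norm_num) (by linarith)
  have hcard : (0 : ℝ) < A.card := by exact_mod_cast hA.card_pos
  obtain ⟨a, ha⟩ : ∃ a, a = Fam.unif A hA := ⟨_, rfl⟩
  obtain ⟨L, hL⟩ : ∃ L, L = Real.log A.card := ⟨_, rfl⟩
  have haL : a.H = L := by rw [ha, hL]; exact H_unif A hA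
  have hexpL : exp L = A.card := by rw [hL, Real.exp_log hcard]
  have hk : (a.add a).H - a.H ≤ κ := by
    have h1 := H_unif_add_unif_le A hA
    have h3 : (0 : ℝ) < ((A + A).card : ℕ) := by exact_mod_cast (hA.add hA).card_pos
    have h2 := Real.log_le_log h3 hAA
    rw [Real.log_mul (Real.exp_pos _).ne' hcard.ne', Real.log_exp, ← hL] at h2
    rw [haL, ha]
    linarith
  have hn1 : 1 ≤ 10 * ν := by
    have h1 : 10 ≤ ν := by exact_mod_cast h10
    omega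
  obtain ⟨T, hTa, r1, r2, r3⟩ := exists_reg_min a hk hκ (n := 10 * ν) hn1
  have r0 : T.H ≤ a.H := hTa.H_le
  rw [haL] at r0 r1
  have c1 : 2 * κ * ((10 * ν : ℕ) : ℝ) = 20 * B := by rw [hB]; push_cast; ring
  have c2 : 16 * κ * ((10 * ν : ℕ) : ℝ) = 160 * B := by rw [hB]; push_cast; ring
  rw [c1] at r1 r3
  rw [c2] at r2
  obtain ⟨j, n₁, hjn, hj1, hbig⟩ := params κ hκ ν hν
  have c5 : 160 * κ * ν = 160 * B := by rw [hB]; ring
  have c6 : 1000 * κ * ν = 1000 * B := by rw [hB]; ring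
  rw [c5] at hbig
  rw [c6] at hj1
  classical
  obtain ⟨Λ, hΛ⟩ : ∃ Λ : Finset (AddChar G ℂ),
    Λ = Finset.univ.filter fun χ : AddChar G ℂ => 1 / 4 ≤ (T.S n₁).spec χ := ⟨_, rfl⟩
  obtain ⟨b1, b2⟩ := core_sets T (10 * ν) j n₁ ν hjn.symm (by linarith) r2 hbig (by linarith) Λ
    (by intro χ; rw [hΛ, Finset.mem_filter]; simp)
  obtain ⟨Z, hZ⟩ : ∃ Z, Z = (T.S n₁).S j := ⟨_, rfl⟩
  have hZ' : Z = T.S (n₁ + j) := by rw [hZ, S_S]
  rw [← hZ] at b1 b2
  have z1 : L - 20 * B ≤ Z.H := by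
    have h1 := H_S_mono T (Nat.zero_le (n₁ + j))
    have h2 : T.S 0 = T := rfl
    rw [← hZ', h2] at h1
    linarith
  have z2 : Z.H ≤ L + 160 * B := by
    have h1 := H_S_mono T (show n₁ + j ≤ 10 * ν by omega)
    rw [← hZ'] at h1
    linarith
  have z3 : (Z.add a).H ≤ L + 180 * B := by
    have h1 := H_add_S_mono Z T (Nat.zero_le (n₁ + j))
    have h2 : Z.add (T.S (n₁ + j)) = T.S (10 * ν) := by
      rw [← hjn, hZ']
      rfl
    have h3 : Z.add (T.S 0) = Z.add T := rfl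
    rw [h2, h3] at h1
    have h4 := r3 Z
    linarith
  -- lower bound of the correlations
  have q1 : ∀ x ∈ Boh Λ 1,
      1 / 4 * exp (-(L + 180 * B)) ≤ (Z.add a).corr x := by
    intro x hx
    have q2 : 6 * (1 / 4 : ℝ) ^ (2 ^ j) * exp (-L) ≤
        exp (-(L + 180 * B)) := by
      have h1 := core_exp (2 ^ j) (180 * B) (by push_cast; linarith)
      have h2 : exp (-(180 * B)) * exp (-L) = exp (-(L + 180 * B)) := by
        rw [← Real.exp_add]
        ring_nf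
      rw [← h2]
      refine mul_le_mul_of_nonneg_right (le_trans ?_ h1) (Real.exp_pos _).le
      exact mul_le_mul_of_nonneg_right (by norm_num) (by positivity)
    rw [hΛ] at hx
    rw [hZ, ha] at z3 ⊢
    exact core_corr (T.S n₁) j (QFR.unif A) (unif_nonneg A) (sum_unif hA)
      (by rw [hL]; exact core_unif_sq A hA) z3 q2 x hx
  have e1 : ∀ x : ℝ, exp (x) * exp (-x) = 1 := by
    intro x
    rw [← Real.exp_add]
    simp
  have e16 : (16 : ℝ) ≤ exp 3 := by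
    have h5 : exp 3 = exp 1 * (exp 1 * exp 1) := by
      rw [← Real.exp_add, ← Real.exp_add]
      norm_num
    rw [h5]
    have h6 := Real.exp_one_gt_d9
    have h7 : (2.7 : ℝ) * 2.7 ≤ exp 1 * exp 1 := mul_le_mul (by linarith) (by linarith)
      (by norm_num) (by linarith)
    have h8 : (2.7 : ℝ) * (2.7 * 2.7) ≤ exp 1 * (exp 1 * exp 1) := mul_le_mul (by linarith) h7
      (by norm_num) (by linarith)
    linarith
  refine ⟨Λ, ?_, ?_, ?_, ?_, ?_⟩
  · -- doubling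
    rw [c6]
    calc ((Boh Λ 1).card : ℝ) ≤ 4 * exp (Z.H + 2) := b2
      _ = 16 * exp (2 + 4 * (160 * B)) * (1 / 4 * exp (Z.H - 4 * (160 * B))) := by
          have : exp (Z.H + 2) = exp (2 + 4 * (160 * B)) * exp (Z.H - 4 * (160 * B)) := by
            rw [← Real.exp_add]
            ring_nf
          rw [this]
          ring
      _ ≤ exp (1000 * B) * (Boh Λ ((1 / 4) ^ ν)).card := by
          refine mul_le_mul ?_ b1 (by positivity) (Real.exp_pos _).le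
          calc 16 * exp (2 + 4 * (160 * B)) ≤ exp 3 * exp (2 + 4 * (160 * B)) :=
                mul_le_mul_of_nonneg_right e16 (Real.exp_pos _).le
            _ = exp (3 + (2 + 4 * (160 * B))) := (Real.exp_add _ _).symm
            _ ≤ exp (1000 * B) := Real.exp_le_exp.2 (by linarith)
  · rw [c6]
    refine le_trans ?_ b1
    have h1 : (4 : ℝ) * exp (-3) ≤ 1 := by
      have := e1 3
      have h2 : 0 < exp (-3) := Real.exp_pos _
      have h3 : 16 * exp (-3) ≤ exp 3 * exp (-3) := mul_le_mul_of_nonneg_right e16 h2.le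
      linarith
    calc exp (-(1000 * B)) * (A.card : ℝ) = exp (-(1000 * B) + L) := by
          rw [← hexpL, Real.exp_add]
      _ ≤ exp (-3 + (Z.H - 4 * (160 * B))) := Real.exp_le_exp.2 (by linarith)
      _ = exp (-3) * exp (Z.H - 4 * (160 * B)) := Real.exp_add _ _
      _ ≤ 1 / 4 * exp (Z.H - 4 * (160 * B)) :=
          mul_le_mul_of_nonneg_right (by linarith) (Real.exp_pos _).le
  · rw [c6]
    calc ((Boh Λ 1).card : ℝ) ≤ 4 * exp (Z.H + 2) := b2
      _ ≤ exp 3 * exp (Z.H + 2) := mul_le_mul_of_nonneg_right (by linarith) (Real.exp_pos _).le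
      _ = exp (3 + (Z.H + 2)) := (Real.exp_add _ _).symm
      _ ≤ exp (1000 * B + L) := Real.exp_le_exp.2 (by linarith)
      _ = exp (1000 * B) * A.card := by rw [Real.exp_add, hexpL]
  · rw [c6]
    have hsub : Boh Λ ((1 / 4) ^ ν) ⊆ Boh Λ 1 :=
      core_boh_mono Λ (pow_le_one₀ (by norm_num) (by norm_num))
    refine exists_dense_piece Z A hA (Boh Λ ((1 / 4) ^ ν)) ?_
    rw [← ha]
    calc exp (-(1000 * B)) ≤ exp (-6 + (Z.H - 4 * (160 * B) + -(L + 180 * B))) :=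
          Real.exp_le_exp.2 (by linarith)
      _ = exp (-3) * exp (-3) * (exp (Z.H - 4 * (160 * B)) *
          exp (-(L + 180 * B))) := by
          rw [← Real.exp_add, ← Real.exp_add, ← Real.exp_add]
          norm_num
      _ ≤ 1 / 4 * (1 / 4) * (exp (Z.H - 4 * (160 * B)) *
          exp (-(L + 180 * B))) := by
          have h1 : exp (-3) ≤ (1 / 4 : ℝ) := by
            have := e1 3
            have h2 : 0 < exp (-3) := Real.exp_pos _
            have h3 : 16 * exp (-3) ≤ exp 3 * exp (-3) := mul_le_mul_of_nonneg_right e16 h2.le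
            linarith
          refine mul_le_mul_of_nonneg_right ?_ (by positivity)
          exact mul_le_mul h1 h1 (Real.exp_pos _).le (by norm_num)
      _ = (1 / 4 * exp (Z.H - 4 * (160 * B))) *
          (1 / 4 * exp (-(L + 180 * B))) := by ring
      _ ≤ (Boh Λ ((1 / 4) ^ ν)).card * (1 / 4 * exp (-(L + 180 * B))) :=
          mul_le_mul_of_nonneg_right b1 (by positivity)
      _ ≤ ∑ x ∈ Boh Λ ((1 / 4) ^ ν), (Z.add a).corr x := by
          rw [← nsmul_eq_mul]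
          exact Finset.card_nsmul_le_sum _ _ _ fun x hx => q1 x (hsub hx)
  · intro x hx
    have h1 := q1 x hx
    have h2 : (Z.add a).corr x ≠ 0 := by
      have h3 : 0 < exp (-(L + 180 * B)) := Real.exp_pos _
      intro h4
      rw [h4] at h1
      linarith
    have s1 : T.SuppIn ((1 • A : Finset G) : Set G) := by
      subst ha
      exact suppIn_of_refines hTa
    have s2 : Z.SuppIn ((2 ^ (n₁ + j) * 1) • A : Finset G) := by
      rw [hZ']
      exact suppIn_S T A _ s1 (n₁ + j)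
    have s3 : ∀ y, QFR.unif A y ≠ 0 → y ∈ 1 • A := by
      intro y hy
      rw [one_nsmul]
      by_contra h
      exact hy (by unfold QFR.unif; rw [if_neg h])
    rw [ha] at h2
    have s4 := corr_supp Z A _ 1 s2 (QFR.unif A) (unif_nonneg A) (sum_unif hA) s3 x h2
    refine diff_mono A hA ?_ x s4
    rw [← hjn, mul_one, pow_succ]
    have := Nat.one_le_two_pow (n := n₁ + j)
    omega

end Pool.Agent.QFR
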