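import Mathlib

/-!
# Quasi-optimal Freiman-Ruzsa: definitions

`G` is a finite abelian group.  A *conditional random variable* with values in `G`
is represented by a family `m i : G → ℝ` (`i : ι`) of nonnegative functions of total mass one:
`m i x = P(Z = i, Y = x)`.  Its entropy is the conditional entropy `H(Y | Z)`.
-/

set_option autoImplicit false

namespace Pool.Agent.QFR

open Finset Real

variable {G : Type} [AddCommGroup G] [Fintype G]

/-- entropy of a mass function (homogeneous of degree one):
`ent m = Σ η(m x) - η(Σ m x)`, `η t = - t log t`. -/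
noncomputable def ent {G : Type} [Fintype G] (m : G → ℝ) : ℝ :=
  ∑ x, negMulLog (m x) - negMulLog (∑ x, m x)

/-- additive convolution -/
noncomputable def conv (f g : G → ℝ) (x : G) : ℝ := ∑ y, f y * g (x - y)

lemma conv_nonneg {f g : G → ℝ} (hf : ∀ x, 0 ≤ f x) (hg : ∀ x, 0 ≤ g x) (x : G) :
    0 ≤ conv f g x := Finset.sum_nonneg fun y _ => mul_nonneg (hf y) (hg _)

lemma sum_conv (f g : G → ℝ) : ∑ x, conv f g x = (∑ x, f x) * ∑ x, g x := by
  unfold conv
  rw [Finset.sum_comm, Finset.sum_mul]
  refine Finset.sum_congr rfl fun y _ => ?_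
  rw [← Finset.mul_sum]
  congr 1
  exact Fintype.sum_equiv (Equiv.subRight y) _ _ fun x => rfl

/-- A family of nonnegative functions on `G` of total mass `1`
(= a `G`-valued random variable `Y` together with a finite valued random variable `Z`). -/
structure Fam (G : Type) [Fintype G] where
  /-- the values of the conditioning variable -/
  ι : Type
  /-- finitely many -/
  [fin : Fintype ι]
  /-- `m i x = P(Z = i, Y = x)` -/
  m : ι → G → ℝ
  nn : ∀ i x, 0 ≤ m i x
  tot : ∑ i, ∑ x, m i x = 1

attribute [instance] Fam.fin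

/-- `p i = P(Z = i)` -/
noncomputable def Fam.p (a : Fam G) (i : a.ι) : ℝ := ∑ x, a.m i x

/-- the conditional entropy `H(Y | Z)` -/
noncomputable def Fam.H (a : Fam G) : ℝ := ∑ i, ent (a.m i)

/-- sum of two independent conditional random variables -/
noncomputable def Fam.add (a b : Fam G) : Fam G where
  ι := a.ι × b.ι
  m := fun t => conv (a.m t.1) (b.m t.2)
  nn := fun t x => conv_nonneg (a.nn _) (b.nn _) x
  tot := by
    simp only [sum_conv]
    rw [Fintype.sum_prod_type]
    simp only [← Finset.mul_sum, a.tot, b.tot, mul_one]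

/-- `(Y₁ | Y₁ + Y₂, Z₁, Z₂)` for independent conditional random variables -/
noncomputable def Fam.fib (a b : Fam G) : Fam G where
  ι := a.ι × b.ι × G
  m := fun t x => a.m t.1 x * b.m t.2.1 (t.2.2 - x)
  nn := fun t x => mul_nonneg (a.nn _ _) (b.nn _ _)
  tot := by
    rw [Fintype.sum_prod_type]
    simp only [Fintype.sum_prod_type]
    have h1 : ∀ (i : a.ι) (j : b.ι), ∑ s : G, ∑ x, a.m i x * b.m j (s - x)
        = (∑ x, a.m i x) * ∑ x, b.m j x := fun i j => sum_conv (a.m i) (b.m j)
    simp only [h1, ← Finset.mul_sum, a.tot, b.tot, mul_one]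

/-- a single probability law as a family (no conditioning) -/
noncomputable def Fam.single (f : G → ℝ) (h0 : ∀ x, 0 ≤ f x) (h1 : ∑ x, f x = 1) : Fam G where
  ι := Unit
  m := fun _ => f
  nn := fun _ => h0
  tot := by simpa using h1

/-- the uniform law on a nonempty finite set -/
noncomputable def unif [DecidableEq G] (A : Finset G) (x : G) : ℝ :=
  if x ∈ A then (A.card : ℝ)⁻¹ else 0

omit [AddCommGroup G] [Fintype G] in
lemma unif_nonneg [DecidableEq G] (A : Finset G) (x : G) : 0 ≤ unif A x := by
  unfold unif; split_ifs <;> positivity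

omit [AddCommGroup G] in
lemma sum_unif [DecidableEq G] {A : Finset G} (hA : A.Nonempty) : ∑ x, unif A x = 1 := by
  unfold unif
  rw [Finset.sum_ite_mem, Finset.univ_inter, Finset.sum_const, nsmul_eq_mul]
  exact mul_inv_cancel₀ (by exact_mod_cast hA.card_pos.ne')

/-- the uniform law on `A` as a family -/
noncomputable def Fam.unif [DecidableEq G] (A : Finset G) (hA : A.Nonempty) : Fam G :=
  Fam.single (QFR.unif A) (unif_nonneg A) (sum_unif hA)

/-- apply a word in the letters `S` (`true`: sum of two copies) and `F` (`false`: fibre of the sum)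
to a family; the head of the list is the OUTERMOST letter (applied last). -/
noncomputable def Fam.word (a : Fam G) : List Bool → Fam G
  | [] => a
  | true :: w => (a.word w).add (a.word w)
  | false :: w => (a.word w).fib (a.word w)

/-- iterated doubling: the sum of `2 ^ n` independent copies -/
noncomputable def Fam.S (a : Fam G) : ℕ → Fam G
  | 0 => a
  | n + 1 => (a.S n).add (a.S n)

open Classical in
/-- `Refines a b`: the conditioning variable of `b` is a function of that of `a`
(and the `G`-valued variables are the same). -/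
def Refines (a b : Fam G) : Prop :=
  ∃ φ : a.ι → b.ι, ∀ j x, b.m j x = ∑ i, if φ i = j then a.m i x else 0

/-- isomorphism of families: relabelling of the conditioning variable -/
def Iso (a b : Fam G) : Prop := ∃ e : a.ι ≃ b.ι, ∀ i x, b.m (e i) x = a.m i x

/-- Fourier coefficient of a real function at a character -/
noncomputable def ft (f : G → ℝ) (χ : AddChar G ℂ) : ℂ := ∑ x, (f x : ℂ) * χ x

/-- `spec a χ = E_z |E (χ(Y) | Z = z)|²` -/
noncomputable def Fam.spec (a : Fam G) (χ : AddChar G ℂ) : ℝ :=
  ∑ i, ‖ft (a.m i) χ‖ ^ 2 / a.p i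

/-- `corr a x = P(Y - Y' = x)` where `Y, Y'` are conditionally independent given `Z` -/
noncomputable def Fam.corr (a : Fam G) (x : G) : ℝ :=
  ∑ i, (∑ y, a.m i (y + x) * a.m i y) / a.p i

open Classical in
/-- the Bohr-type set `{x : |1 - χ(x)| ≤ η for all χ ∈ Λ}` -/
noncomputable def Boh (Λ : Finset (AddChar G ℂ)) (η : ℝ) : Finset G :=
  Finset.univ.filter fun x => ∀ χ ∈ Λ, ‖1 - χ x‖ ≤ η

/-- all values of the family lie in the set `B` -/
def Fam.SuppIn (a : Fam G) (B : Set G) : Prop := ∀ i x, a.m i x ≠ 0 → x ∈ B

end Pool.Agent.QFR
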