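import Pool.Agent.W_626a77_h48.Defs

/-!
# Basic properties of `ent`

`ent m = Σ_x η(m x) - η(Σ_x m x)`.
-/

set_option autoImplicit false

namespace Pool.Agent.QFR

open Finset Real

variable {G : Type} [Fintype G]

/-- homogeneity (`Real.negMulLog_mul`) -/
theorem ent_smul (c : ℝ) (m : G → ℝ) : ent (fun x => c * m x) = c * ent m := by
  unfold ent
  rw [← Finset.mul_sum, negMulLog_mul]
  simp only [negMulLog_mul]
  rw [Finset.sum_add_distrib, ← Finset.sum_mul, ← Finset.mul_sum]
  ring

/-- Gibbs inequality: comparison with a nonnegative function `s` that is nonzero where `f` is. -/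
theorem ent_gibbs (f s : G → ℝ) (hf : ∀ x, 0 ≤ f x) (hs : ∀ x, 0 ≤ s x)
    (hfs : ∀ x, s x = 0 → f x = 0) :
    ent f ≤ (∑ x, f x) * Real.log (∑ x, s x) - ∑ x, f x * Real.log (s x) := by
  set P := ∑ x, f x with hP
  set T := ∑ x, s x with hT
  have hP0 : 0 ≤ P := Finset.sum_nonneg fun x _ => hf x
  have hT0 : 0 ≤ T := Finset.sum_nonneg fun x _ => hs x
  have key : ∀ x ∈ (Finset.univ : Finset G), negMulLog (f x) + f x * Real.log (s x) ≤
      f x * (Real.log T - Real.log P) + (s x * P / T - f x) := by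
    intro x _
    rcases (hf x).eq_or_lt with h | h
    · rw [← h]
      simp only [negMulLog_zero, zero_mul, zero_add, sub_zero]
      exact div_nonneg (mul_nonneg (hs x) hP0) hT0
    · have hsx : 0 < s x := lt_of_le_of_ne (hs x) fun h0 => by
        rw [hfs x h0.symm] at h; exact lt_irrefl _ h
      have hPx : 0 < P := lt_of_lt_of_le h (Finset.single_le_sum (fun y _ => hf y) (mem_univ x))
      have hTx : 0 < T := lt_of_lt_of_le hsx (Finset.single_le_sum (fun y _ => hs y) (mem_univ x))
      have h1 := Real.log_le_sub_one_of_pos (x := s x * P / T / f x) (by positivity)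
      rw [Real.log_div (by positivity) h.ne', Real.log_div (by positivity) hTx.ne',
        Real.log_mul hsx.ne' hPx.ne'] at h1
      have h2 := mul_le_mul_of_nonneg_left h1 h.le
      have h3 : f x * (s x * P / T / f x - 1) = s x * P / T - f x := by
        field_simp
      rw [h3] at h2
      unfold negMulLog
      nlinarith [h2]
  have hsum := Finset.sum_le_sum key
  rw [Finset.sum_add_distrib, Finset.sum_add_distrib, ← Finset.sum_mul, Finset.sum_sub_distrib,
    ← hP] at hsum
  have h4 : ∑ x, s x * P / T ≤ P := by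
    rw [← Finset.sum_div, ← Finset.sum_mul, ← hT]
    rcases hT0.eq_or_lt with h | h
    · rw [← h]; simpa using hP0
    · rw [mul_div_assoc, mul_div_cancel₀ _ h.ne']
  have h5 : ent f = ∑ x, negMulLog (f x) + P * Real.log P := by
    unfold ent
    rw [← hP]
    unfold negMulLog
    ring
  rw [h5]
  linarith

/-- SUPERADDITIVITY = conditioning decreases entropy.  Enough for two functions or directly:
for each `x`, `ent m = Σ_x m x * log (p / m x)` where `p = Σ m`, and by the log sum inequality
(concavity of `negMulLog`/`log`) `Σ_i a_i log (p_i / a_i) ≤ (Σ a_i) log (Σ p_i / Σ a_i)`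
for `0 ≤ a_i ≤ p_i`. -/
theorem ent_sum_le {κ : Type} (s : Finset κ) (m : κ → G → ℝ) (h : ∀ i ∈ s, ∀ x, 0 ≤ m i x) :
    ∑ i ∈ s, ent (m i) ≤ ent (fun x => ∑ i ∈ s, m i x) := by
  have h1 : ∀ i ∈ s, ent (m i) ≤ (∑ x, m i x) * Real.log (∑ x, ∑ j ∈ s, m j x)
      - ∑ x, m i x * Real.log (∑ j ∈ s, m j x) := by
    intro i hi
    refine ent_gibbs (m i) (fun x => ∑ j ∈ s, m j x) (h i hi)
      (fun x => Finset.sum_nonneg fun j hj => h j hj x) ?_
    intro x hx
    exact (Finset.sum_eq_zero_iff_of_nonneg fun j hj => h j hj x).mp hx i hi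
  refine (Finset.sum_le_sum h1).trans (le_of_eq ?_)
  rw [Finset.sum_sub_distrib, ← Finset.sum_mul, Finset.sum_comm (s := s)]
  conv_lhs =>
    arg 2
    rw [Finset.sum_comm]
  unfold ent
  simp only [← Finset.sum_mul]
  unfold negMulLog
  rw [show ∑ x, -(∑ i ∈ s, m i x) * Real.log (∑ i ∈ s, m i x)
    = -∑ x, (∑ i ∈ s, m i x) * Real.log (∑ i ∈ s, m i x) by
      rw [← Finset.sum_neg_distrib]; exact Finset.sum_congr rfl fun x _ => by ring]
  ring

/-- `ent` is nonnegative: `m x ≤ p`, `ent m = Σ m x log (p / m x)`. -/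
theorem ent_nonneg (m : G → ℝ) (h : ∀ x, 0 ≤ m x) : 0 ≤ ent m := by
  unfold ent
  have h1 : negMulLog (∑ x, m x) = ∑ x, -(m x * Real.log (∑ y, m y)) := by
    unfold negMulLog
    rw [Finset.sum_neg_distrib, ← Finset.sum_mul]
    ring
  rw [h1, ← Finset.sum_sub_distrib]
  refine Finset.sum_nonneg fun x _ => ?_
  unfold negMulLog
  rcases (h x).eq_or_lt with h0 | h0
  · rw [← h0]; simp
  · have h2 : Real.log (m x) ≤ Real.log (∑ y, m y) :=
      Real.log_le_log h0 (Finset.single_le_sum (fun y _ => h y) (mem_univ x))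
    nlinarith [mul_le_mul_of_nonneg_left h2 h0.le]

/-- entropy is at most the logarithm of the size of the support (Jensen). -/
theorem ent_le_card (m : G → ℝ) (h : ∀ x, 0 ≤ m x) (s : Finset G) (hs : ∀ x, x ∉ s → m x = 0) :
    ent m ≤ (∑ x, m x) * Real.log s.card := by
  classical
  have h1 := ent_gibbs m (fun x => if x ∈ s then 1 else 0) h
    (fun x => by split_ifs <;> norm_num)
    (fun x hx => hs x fun hxs => by simp [hxs] at hx)
  have h2 : ∑ x : G, (if x ∈ s then (1 : ℝ) else 0) = s.card := by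
    rw [Finset.sum_ite_mem, Finset.univ_inter, Finset.sum_const, nsmul_eq_mul, mul_one]
  have h3 : ∑ x : G, m x * Real.log (if x ∈ s then (1 : ℝ) else 0) = 0 := by
    refine Finset.sum_eq_zero fun x _ => ?_
    split_ifs <;> simp
  simp only [h2, h3, sub_zero] at h1
  exact h1

/-- invariance under bijections of `G` (in particular translations) -/
theorem ent_equiv (m : G → ℝ) (e : G ≃ G) : ent (fun x => m (e x)) = ent m := by
  unfold ent
  rw [Equiv.sum_comp e m, Equiv.sum_comp e fun x => negMulLog (m x)]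

end Pool.Agent.QFR
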