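import Pool.Agent.W_626a77_h48.Ent

/-!
# Refinement of families

`Refines a b` means that the conditioning variable of `b` is a function of that of `a`.
-/

set_option autoImplicit false
set_option linter.unusedSectionVars false

namespace Pool.Agent.QFR

open Finset Real

variable {G : Type} [AddCommGroup G] [Fintype G]

open Classical in
/-- conditioning on more decreases entropy (`ent_sum_le`, fibrewise over `φ`) -/
theorem Refines.H_le {a b : Fam G} (h : Refines a b) : a.H ≤ b.H := by
  obtain ⟨φ, hφ⟩ := h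
  unfold Fam.H
  rw [← Finset.sum_fiberwise Finset.univ φ (fun i => ent (a.m i))]
  refine Finset.sum_le_sum fun j _ => ?_
  have h1 : b.m j = fun x => ∑ i ∈ Finset.univ.filter (fun i => φ i = j), a.m i x := by
    funext x
    rw [hφ j x, Finset.sum_filter]
  rw [h1]
  exact ent_sum_le _ _ fun i _ x => a.nn i x

theorem Refines.refl (a : Fam G) : Refines a a := by
  classical
  refine ⟨id, fun j x => ?_⟩
  rw [Finset.sum_eq_single j]
  · simp
  · intro i _ hi
    rw [if_neg]
    exact hi
  · intro h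
    exact absurd (Finset.mem_univ j) h

theorem Refines.trans {a b c : Fam G} (h : Refines a b) (h' : Refines b c) : Refines a c := by
  classical
  obtain ⟨φ, hφ⟩ := h
  obtain ⟨ψ, hψ⟩ := h'
  refine ⟨fun i => ψ (φ i), fun k x => ?_⟩
  rw [hψ k x]
  have h1 : ∀ j : b.ι, (if ψ j = k then b.m j x else 0)
      = ∑ i, if φ i = j then (if ψ j = k then a.m i x else 0) else 0 := by
    intro j
    by_cases hj : ψ j = k
    · simp only [if_pos hj]
      exact hφ j x
    · simp only [if_neg hj, ite_self, Finset.sum_const_zero]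
  rw [Finset.sum_congr rfl fun j _ => h1 j, Finset.sum_comm]
  refine Finset.sum_congr rfl fun i _ => ?_
  rw [Finset.sum_eq_single (φ i)]
  · rw [if_pos rfl]
  · intro j _ hj
    rw [if_neg]
    exact fun h => hj h.symm
  · intro h
    exact absurd (Finset.mem_univ _) h

/-- `φ × ψ`; `conv` is bilinear -/
theorem Refines.add {a a' b b' : Fam G} (h : Refines a a') (h' : Refines b b') :
    Refines (a.add b) (a'.add b') := by
  classical
  obtain ⟨φ, hφ⟩ := h
  obtain ⟨ψ, hψ⟩ := h'
  refine ⟨fun t => (φ t.1, ψ t.2), ?_⟩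
  rintro ⟨k1, k2⟩ x
  show conv (a'.m k1) (b'.m k2) x = ∑ t : a.ι × b.ι,
    @ite ℝ ((φ t.1, ψ t.2) = (k1, k2)) (Classical.propDecidable _) (conv (a.m t.1) (b.m t.2) x) 0
  rw [Fintype.sum_prod_type]
  unfold conv
  have h1 : ∀ y, a'.m k1 y * b'.m k2 (x - y) = ∑ i, ∑ j,
      @ite ℝ ((φ i, ψ j) = (k1, k2)) (Classical.propDecidable _) (a.m i y * b.m j (x - y)) 0 := by
    intro y
    rw [hφ, hψ, Finset.sum_mul_sum]
    refine Finset.sum_congr rfl fun i _ => Finset.sum_congr rfl fun j _ => ?_
    by_cases h1 : φ i = k1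
    · by_cases h2 : ψ j = k2
      · rw [if_pos h1, if_pos h2, if_pos (by rw [h1, h2])]
      · rw [if_neg h2, mul_zero, if_neg]
        exact fun h => h2 (congrArg Prod.snd h)
    · rw [if_neg h1, zero_mul, if_neg]
      exact fun h => h1 (congrArg Prod.fst h)
  rw [Finset.sum_congr rfl fun y _ => h1 y, Finset.sum_comm]
  refine Finset.sum_congr rfl fun i _ => ?_
  rw [Finset.sum_comm]
  refine Finset.sum_congr rfl fun j _ => ?_
  by_cases h2 : (φ i, ψ j) = (k1, k2)
  · simp only [if_pos h2]
  · simp only [if_neg h2, Finset.sum_const_zero]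

/-- `φ × ψ × id` -/
theorem Refines.fib {a a' b b' : Fam G} (h : Refines a a') (h' : Refines b b') :
    Refines (a.fib b) (a'.fib b') := by
  classical
  obtain ⟨φ, hφ⟩ := h
  obtain ⟨ψ, hψ⟩ := h'
  refine ⟨fun t => (φ t.1, ψ t.2.1, t.2.2), ?_⟩
  rintro ⟨k1, k2, k3⟩ x
  show a'.m k1 x * b'.m k2 (k3 - x) = ∑ t : a.ι × b.ι × G,
    @ite ℝ ((φ t.1, ψ t.2.1, t.2.2) = (k1, k2, k3)) (Classical.propDecidable _)
      (a.m t.1 x * b.m t.2.1 (t.2.2 - x)) 0
  rw [Fintype.sum_prod_type]
  simp only [Fintype.sum_prod_type]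
  rw [hφ, hψ, Finset.sum_mul_sum]
  refine Finset.sum_congr rfl fun i _ => Finset.sum_congr rfl fun j _ => ?_
  rw [Finset.sum_eq_single k3]
  · by_cases h1 : φ i = k1
    · by_cases h2 : ψ j = k2
      · rw [if_pos h1, if_pos h2, if_pos (by rw [h1, h2])]
      · rw [if_neg h2, mul_zero, if_neg]
        exact fun h => h2 (congrArg (fun z => z.2.1) h)
    · rw [if_neg h1, zero_mul, if_neg]
      exact fun h => h1 (congrArg Prod.fst h)
  · intro s _ hs
    rw [if_neg]
    exact fun h => hs (congrArg (fun z => z.2.2) h)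
  · intro h
    exact absurd (Finset.mem_univ _) h

/-- `(Y | Y + Y', Z, Z')` refines `(Y | Z)`: index map `(i,j,s) ↦ i`. -/
theorem refines_fib_left (a b : Fam G) : Refines (a.fib b) a := by
  classical
  refine ⟨fun t => t.1, fun i x => ?_⟩
  show a.m i x = ∑ t : a.ι × b.ι × G, if t.1 = i then a.m t.1 x * b.m t.2.1 (t.2.2 - x) else 0
  rw [Fintype.sum_prod_type]
  simp only [Fintype.sum_prod_type]
  rw [Finset.sum_eq_single i]
  · simp only [if_true]
    simp only [← Finset.mul_sum]
    have h1 : ∀ j : b.ι, ∑ s : G, b.m j (s - x) = ∑ y, b.m j y := fun j =>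
      Fintype.sum_equiv (Equiv.subRight x) _ _ fun s => rfl
    simp only [h1, b.tot, mul_one]
  · intro i' _ hi
    refine Finset.sum_eq_zero fun j _ => Finset.sum_eq_zero fun s _ => ?_
    rw [if_neg hi]
  · intro h
    exact absurd (Finset.mem_univ _) h

end Pool.Agent.QFR
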