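import Pool.Agent.W_626a77_h48.Defs

/-!
# Isomorphism of families
-/

set_option autoImplicit false

namespace Pool.Agent.QFR

open Finset Real

variable {G : Type} [AddCommGroup G] [Fintype G]

theorem Iso.refl (a : Fam G) : Iso a a := ⟨Equiv.refl _, fun _ _ => rfl⟩

theorem Iso.symm {a b : Fam G} (h : Iso a b) : Iso b a := by
  obtain ⟨e, he⟩ := h
  refine ⟨e.symm, fun i x => ?_⟩
  rw [← he (e.symm i) x, Equiv.apply_symm_apply]

theorem Iso.trans {a b c : Fam G} (h : Iso a b) (h' : Iso b c) : Iso a c := by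
  obtain ⟨e, he⟩ := h
  obtain ⟨e', he'⟩ := h'
  refine ⟨e.trans e', fun i x => ?_⟩
  rw [Equiv.trans_apply, he', he]

theorem Iso.H_eq {a b : Fam G} (h : Iso a b) : a.H = b.H := by
  obtain ⟨e, he⟩ := h
  unfold Fam.H
  refine Fintype.sum_equiv e _ _ fun i => ?_
  have : b.m (e i) = a.m i := funext fun x => he i x
  rw [this]

theorem Iso.add {a a' b b' : Fam G} (h : Iso a a') (h' : Iso b b') :
    Iso (a.add b) (a'.add b') := by
  obtain ⟨e, he⟩ := h
  obtain ⟨e', he'⟩ := h'
  refine ⟨Equiv.prodCongr e e', fun i x => ?_⟩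
  obtain ⟨i, j⟩ := i
  have h1 : a'.m (e i) = a.m i := funext fun x => he i x
  have h2 : b'.m (e' j) = b.m j := funext fun x => he' j x
  show conv (a'.m (e i)) (b'.m (e' j)) x = conv (a.m i) (b.m j) x
  rw [h1, h2]

omit [Fintype G] in
theorem conv_comm' [Fintype G] (f g : G → ℝ) (x : G) : conv f g x = conv g f x := by
  unfold conv
  refine Fintype.sum_equiv (Equiv.subLeft x) _ _ fun y => ?_
  simp only [Equiv.subLeft_apply, sub_sub_cancel]
  ring

omit [Fintype G] in
theorem conv_assoc' [Fintype G] (f g h : G → ℝ) (x : G) :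
    conv (conv f g) h x = conv f (conv g h) x := by
  unfold conv
  simp only [Finset.sum_mul, Finset.mul_sum]
  rw [Finset.sum_comm]
  refine Finset.sum_congr rfl fun y _ => ?_
  refine Fintype.sum_equiv (Equiv.subRight y) _ _ fun z => ?_
  simp only [Equiv.subRight_apply]
  rw [show x - y - (z - y) = x - z by abel]
  ring

theorem iso_add_comm (a b : Fam G) : Iso (a.add b) (b.add a) := by
  refine ⟨Equiv.prodComm _ _, fun i x => ?_⟩
  obtain ⟨i, j⟩ := i
  exact conv_comm' (b.m j) (a.m i) x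

theorem iso_add_assoc (a b c : Fam G) : Iso ((a.add b).add c) (a.add (b.add c)) := by
  refine ⟨Equiv.prodAssoc _ _ _, fun i x => ?_⟩
  obtain ⟨⟨i, j⟩, k⟩ := i
  exact (conv_assoc' (a.m i) (b.m j) (c.m k) x).symm

end Pool.Agent.QFR
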