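import Pool.Agent.W_626a77_h48.FamA
import Pool.Agent.W_626a77_h48.FamI

/-!
# Entropy of sums
-/

set_option autoImplicit false

namespace Pool.Agent.QFR

open Finset Real

variable {G : Type} [AddCommGroup G] [Fintype G]

lemma fb_H_fib (a b : Fam G) : (a.fib b).H =
    ∑ i, ∑ j, ∑ s, ent (fun x => a.m i x * b.m j (s - x)) := by
  have h : (a.fib b).H =
      ∑ t : a.ι × b.ι × G, ent (fun x => a.m t.1 x * b.m t.2.1 (t.2.2 - x)) := rfl
  rw [h]
  simp only [Fintype.sum_prod_type]

lemma fb_H_add (a b : Fam G) : (a.add b).H = ∑ i, ∑ j, ent (conv (a.m i) (b.m j)) := by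
  have h : (a.add b).H = ∑ t : a.ι × b.ι, ent (conv (a.m t.1) (b.m t.2)) := rfl
  rw [h]
  simp only [Fintype.sum_prod_type]

lemma fb_sum_shift (F : G → G → ℝ) : ∑ s, ∑ x, F x (s - x) = ∑ x, ∑ y, F x y := by
  rw [Finset.sum_comm]
  refine Finset.sum_congr rfl fun x _ => ?_
  exact Fintype.sum_equiv (Equiv.subRight x) _ _ fun s => rfl

lemma fb_key (f g : G → ℝ) :
    (∑ s, ent (fun x => f x * g (s - x))) + ent (conv f g) =
      (∑ x, g x) * ent f + (∑ x, f x) * ent g := by
  have h1 : ∀ s, ent (fun x => f x * g (s - x)) =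
      ∑ x, negMulLog (f x * g (s - x)) - negMulLog (conv f g s) := fun s => rfl
  have h2 : ent (conv f g) = ∑ s, negMulLog (conv f g s) -
      negMulLog ((∑ x, f x) * ∑ x, g x) := by
    rw [← sum_conv]; rfl
  have h3 : ∑ s, ∑ x, negMulLog (f x * g (s - x)) =
      (∑ x, g x) * ∑ x, negMulLog (f x) + (∑ x, f x) * ∑ x, negMulLog (g x) := by
    rw [fb_sum_shift (fun x y => negMulLog (f x * g y))]
    simp only [negMulLog_mul, Finset.sum_add_distrib, ← Finset.mul_sum, ← Finset.sum_mul]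
  rw [Finset.sum_congr rfl fun s _ => h1 s, Finset.sum_sub_distrib, h2, h3, negMulLog_mul]
  unfold ent
  ring

/-- chain rule: `H(Y | Y+Y', Z, Z') + H(Y+Y' | Z, Z') = H(Y|Z) + H(Y'|Z')`.
`Σ_{i,j,s} [Σ_x η(a_i(x) b_j(s-x)) - η((a_i*b_j)(s))] + Σ_{i,j} [Σ_s η((a_i*b_j)(s)) - η(p_i q_j)]`
`= Σ_{i,j} [Σ_{x,y} η(a_i(x) b_j(y)) - η(p_i q_j)]`, then `negMulLog_mul` and total masses one. -/
theorem H_fib_add_H_add (a b : Fam G) : (a.fib b).H + (a.add b).H = a.H + b.H := by
  rw [fb_H_fib, fb_H_add, ← Finset.sum_add_distrib]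
  simp only [← Finset.sum_add_distrib, fb_key]
  simp only [Finset.sum_add_distrib, ← Finset.sum_mul, ← Finset.mul_sum, a.tot, b.tot, one_mul]
  rfl

/-- The family `(i,j,y) ↦ (x ↦ a_i(x-y) b_j(y))`. -/
noncomputable def fbShift (a b : Fam G) : Fam G where
  ι := a.ι × b.ι × G
  m := fun t x => b.m t.2.1 t.2.2 * a.m t.1 (x - t.2.2)
  nn := fun t x => mul_nonneg (b.nn _ _) (a.nn _ _)
  tot := by
    simp only [Fintype.sum_prod_type]
    have h1 : ∀ (i : a.ι) (j : b.ι), ∑ y : G, ∑ x, b.m j y * a.m i (x - y)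
        = (∑ x, a.m i x) * ∑ x, b.m j x := by
      intro i j
      rw [Finset.mul_sum]
      refine Finset.sum_congr rfl fun y _ => ?_
      rw [← Finset.mul_sum, mul_comm]
      congr 1
      exact Fintype.sum_equiv (Equiv.subRight y) _ _ fun s => rfl
    simp only [h1]
    simp only [← Finset.mul_sum, a.tot, b.tot, mul_one]

/-- `H(Y) ≤ H(Y+Y')`: the family indexed by `(i,j,y)` with mass `x ↦ a_i(x-y) b_j(y)` refines
`a.add b` and has entropy `a.H` (`ent_smul`, `ent_equiv`). -/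
theorem H_le_add_left (a b : Fam G) : a.H ≤ (a.add b).H := by
  classical
  have h1 : (fbShift a b).H = a.H := by
    have h : (fbShift a b).H =
        ∑ t : a.ι × b.ι × G, ent (fun x => b.m t.2.1 t.2.2 * a.m t.1 (x - t.2.2)) := rfl
    rw [h]
    simp only [Fintype.sum_prod_type]
    unfold Fam.H
    refine Finset.sum_congr rfl fun i _ => ?_
    have h2 : ∀ (j : b.ι) (y : G), ent (fun x => b.m j y * a.m i (x - y)) =
        b.m j y * ent (a.m i) := by
      intro j y
      rw [ent_smul, ← ent_equiv (a.m i) (Equiv.subRight y)]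
      rfl
    simp only [h2, ← Finset.sum_mul, b.tot, one_mul]
  rw [← h1]
  refine Refines.H_le ⟨fun t => (t.1, t.2.1), ?_⟩
  rintro ⟨i, j⟩ x
  have h3 : (∑ t : (fbShift a b).ι, if (fun t : (fbShift a b).ι =>
      ((t.1, t.2.1) : (a.add b).ι)) t = ((i, j) : (a.add b).ι) then (fbShift a b).m t x else 0) =
      ∑ t : a.ι × b.ι × G, if (t.1, t.2.1) = (i, j) then
        b.m t.2.1 t.2.2 * a.m t.1 (x - t.2.2) else 0 := by
    refine Finset.sum_congr rfl fun t _ => ?_
    exact if_congr Iff.rfl rfl rfl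
  refine Eq.trans ?_ (Eq.trans h3.symm ?_)
  · show conv (a.m i) (b.m j) x = _
    simp only [Fintype.sum_prod_type, Prod.mk.injEq, ite_and]
    rw [Fintype.sum_eq_single i (fun i' hi' => by simp [hi']),
      Fintype.sum_eq_single j (fun j' hj' => by simp [hj'])]
    simp only [if_true]
    unfold conv
    refine Fintype.sum_equiv (Equiv.subLeft x) _ _ fun y => ?_
    simp only [Equiv.subLeft_apply, sub_sub_cancel]
    ring
  · refine Finset.sum_congr rfl fun t _ => ?_
    congr

theorem H_le_add_right (a b : Fam G) : b.H ≤ (a.add b).H := by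
  rw [(iso_add_comm a b).H_eq]
  exact H_le_add_left b a

/-- The family `(i,l,z) ↦ c_l(z) a_i`. -/
noncomputable def fbWeight (a c : Fam G) : Fam G where
  ι := a.ι × c.ι × G
  m := fun t x => c.m t.2.1 t.2.2 * a.m t.1 x
  nn := fun t x => mul_nonneg (c.nn _ _) (a.nn _ _)
  tot := by
    simp only [Fintype.sum_prod_type, ← Finset.mul_sum, ← Finset.sum_mul, a.tot, c.tot, one_mul]

omit [AddCommGroup G] in
lemma fbWeight_H (a c : Fam G) : (fbWeight a c).H = a.H := by
  have h : (fbWeight a c).H =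
      ∑ t : a.ι × c.ι × G, ent (fun x => c.m t.2.1 t.2.2 * a.m t.1 x) := rfl
  rw [h]
  simp only [Fintype.sum_prod_type, ent_smul, ← Finset.sum_mul, c.tot, one_mul]
  rfl

lemma fb_fib_le (a b c : Fam G) : (a.fib b).H ≤ (a.fib (b.add c)).H := by
  classical
  rw [← fbWeight_H (a.fib b) c]
  refine Refines.H_le ⟨fun t => (t.1.1, (t.1.2.1, t.2.1), t.1.2.2 + t.2.2), ?_⟩
  rintro ⟨i, ⟨j, l⟩, s⟩ x
  have h3 : (∑ t : (fbWeight (a.fib b) c).ι, if (fun t : (fbWeight (a.fib b) c).ι =>
      ((t.1.1, (t.1.2.1, t.2.1), t.1.2.2 + t.2.2) : (a.fib (b.add c)).ι)) t =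
        ((i, (j, l), s) : (a.fib (b.add c)).ι) then (fbWeight (a.fib b) c).m t x else 0) =
      ∑ t : (a.ι × b.ι × G) × c.ι × G, if (t.1.1, (t.1.2.1, t.2.1), t.1.2.2 + t.2.2) =
        (i, (j, l), s) then
        c.m t.2.1 t.2.2 * (a.m t.1.1 x * b.m t.1.2.1 (t.1.2.2 - x)) else 0 := by
    refine Finset.sum_congr rfl fun t _ => ?_
    exact if_congr Iff.rfl rfl rfl
  refine Eq.trans ?_ (Eq.trans h3.symm ?_)
  · show a.m i x * conv (b.m j) (c.m l) (s - x) = _
    simp only [Fintype.sum_prod_type, Prod.mk.injEq, ite_and]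
    rw [Fintype.sum_eq_single i (fun i' hi' => by simp [hi']),
      Fintype.sum_eq_single j (fun j' hj' => by simp [hj'])]
    simp only [if_true]
    have h4 : ∀ t : G, (∑ l' : c.ι, ∑ z : G, if l' = l then if t + z = s then
        c.m l' z * (a.m i x * b.m j (t - x)) else 0 else 0) =
        c.m l (s - t) * (a.m i x * b.m j (t - x)) := by
      intro t
      rw [Fintype.sum_eq_single l (fun l' hl' => by simp [hl']),
        Fintype.sum_eq_single (s - t) (fun z hz => ?_)]
      · simp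
      · rw [if_pos rfl, if_neg]
        intro h
        exact hz (eq_sub_of_add_eq' h)
    simp only [h4]
    unfold conv
    rw [Finset.mul_sum]
    refine Fintype.sum_equiv (Equiv.addRight x) _ _ fun y => ?_
    simp only [Equiv.coe_addRight, add_sub_cancel_right]
    have h5 : s - (y + x) = s - x - y := by abel
    rw [h5]
    ring
  · refine Finset.sum_congr rfl fun t _ => ?_
    congr

/-- submodularity.  The family indexed by `(i,j,t,l,z)` with mass `x ↦ a_i(x) b_j(t-x) c_l(z)`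
refines `a.fib (b.add c)` via `(i,j,t,l,z) ↦ (i,(j,l),t+z)` and has entropy `(a.fib b).H`
(`ent_smul`); now use the chain rule `H_fib_add_H_add` twice and associativity. -/
theorem submod (a b c : Fam G) :
    ((a.add b).add c).H + b.H ≤ (a.add b).H + (b.add c).H := by
  have h1 := H_fib_add_H_add a b
  have h2 := H_fib_add_H_add a (b.add c)
  have h3 := fb_fib_le a b c
  have h4 := (iso_add_assoc a b c).H_eq
  linarith

theorem H_nonneg (a : Fam G) : 0 ≤ a.H :=
  Finset.sum_nonneg fun i _ => ent_nonneg _ (a.nn i)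

end Pool.Agent.QFR
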