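import Pool.Agent.W_626a77_h48.Defs

/-!
# Fourier analysis of `spec` and `corr`

Useful in Mathlib: `AddChar.sum_apply_eq_ite`, `AddChar.sum_eq_ite`, `AddChar.card_eq`,
`AddChar.norm_apply`, `AddChar.map_neg_eq_conj`.
-/

set_option autoImplicit false

namespace Pool.Agent.QFR

open Finset Real

variable {G : Type} [AddCommGroup G] [Fintype G]

omit [AddCommGroup G] in
theorem famp_nonneg (a : Fam G) (i : a.ι) : 0 ≤ a.p i :=
  Finset.sum_nonneg fun x _ => a.nn i x

theorem spec_nonneg (a : Fam G) (χ : AddChar G ℂ) : 0 ≤ a.spec χ :=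
  Finset.sum_nonneg fun i _ => div_nonneg (by positivity) (famp_nonneg a i)

/-- the Fourier coefficient of a nonnegative function is at most its total mass -/
theorem norm_ft_le (a : Fam G) (i : a.ι) (χ : AddChar G ℂ) : ‖ft (a.m i) χ‖ ≤ a.p i := by
  unfold ft Fam.p
  refine (norm_sum_le _ _).trans (Finset.sum_le_sum fun x _ => ?_)
  rw [norm_mul, AddChar.norm_apply, mul_one, Complex.norm_real, Real.norm_eq_abs,
    abs_of_nonneg (a.nn i x)]

/-- `‖ft m χ‖ ≤ p` -/
theorem spec_le_one (a : Fam G) (χ : AddChar G ℂ) : a.spec χ ≤ 1 := by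
  unfold Fam.spec
  have h : ∀ i, ‖ft (a.m i) χ‖ ^ 2 / a.p i ≤ ∑ x, a.m i x := by
    intro i
    have hp := famp_nonneg a i
    have h1 := norm_ft_le a i χ
    show _ ≤ a.p i
    rcases hp.eq_or_lt with h0 | h0
    · rw [← h0]; simp
    · rw [div_le_iff₀ h0, ← sq]
      exact pow_le_pow_left₀ (norm_nonneg _) h1 2
  exact (Finset.sum_le_sum fun i _ => h i).trans a.tot.le

/-- Fourier transform of a convolution -/
theorem ft_conv (f g : G → ℝ) (χ : AddChar G ℂ) : ft (conv f g) χ = ft f χ * ft g χ := by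
  unfold ft conv
  have h1 : ∀ x : G, ((∑ y, f y * g (x - y) : ℝ) : ℂ) * χ x
      = ∑ y, ((f y : ℂ) * χ y) * ((g (x - y) : ℂ) * χ (x - y)) := by
    intro x
    rw [Complex.ofReal_sum, Finset.sum_mul]
    refine Finset.sum_congr rfl fun y _ => ?_
    have h2 : χ x = χ y * χ (x - y) := by
      rw [← AddChar.map_add_eq_mul]
      congr 1
      abel
    rw [h2, Complex.ofReal_mul]
    ring
  rw [Finset.sum_congr rfl fun x _ => h1 x, Finset.sum_comm, Finset.sum_mul]
  refine Finset.sum_congr rfl fun y _ => ?_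
  rw [← Finset.mul_sum]
  congr 1
  exact Fintype.sum_equiv (Equiv.subRight y) _ _ fun x => rfl

/-- `ft (conv f g) χ = ft f χ * ft g χ` and `p_(i,j) = p_i p_j` -/
theorem spec_add (a b : Fam G) (χ : AddChar G ℂ) :
    (a.add b).spec χ = a.spec χ * b.spec χ := by
  unfold Fam.spec
  rw [Finset.sum_mul_sum]
  show ∑ t : a.ι × b.ι, ‖ft (conv (a.m t.1) (b.m t.2)) χ‖ ^ 2 / (∑ x, conv (a.m t.1) (b.m t.2) x)
    = _
  rw [Fintype.sum_prod_type]
  refine Finset.sum_congr rfl fun i _ => Finset.sum_congr rfl fun j _ => ?_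
  rw [ft_conv, sum_conv, norm_mul, mul_pow, mul_div_mul_comm]
  rfl

theorem spec_S (a : Fam G) (n : ℕ) (χ : AddChar G ℂ) :
    (a.S n).spec χ = a.spec χ ^ (2 ^ n) := by
  induction n with
  | zero => simp [Fam.S]
  | succ n ih =>
    show ((a.S n).add (a.S n)).spec χ = _
    rw [spec_add, ih, pow_succ 2 n, pow_mul, sq]

theorem corr_nonneg (a : Fam G) (x : G) : 0 ≤ a.corr x :=
  Finset.sum_nonneg fun i _ => div_nonneg
    (Finset.sum_nonneg fun _ _ => mul_nonneg (a.nn _ _) (a.nn _ _)) (famp_nonneg a i)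

theorem sum_corr (a : Fam G) : ∑ x, a.corr x = 1 := by
  unfold Fam.corr
  rw [Finset.sum_comm, ← a.tot]
  refine Finset.sum_congr rfl fun i _ => ?_
  rw [← Finset.sum_div, Finset.sum_comm]
  have h : ∀ y : G, ∑ x, a.m i (y + x) * a.m i y = a.p i * a.m i y := by
    intro y
    rw [← Finset.sum_mul]
    congr 1
    exact Fintype.sum_equiv (Equiv.addLeft y) _ _ fun x => rfl
  rw [Finset.sum_congr rfl fun y _ => h y, ← Finset.mul_sum]
  show a.p i * a.p i / a.p i = a.p i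
  exact mul_self_div_self _

/-- Fourier inversion for the autocorrelation of a real function -/
theorem sum_normsq_ft (f : G → ℝ) (x : G) :
    ∑ χ : AddChar G ℂ, ((‖ft f χ‖ ^ 2 : ℝ) : ℂ) * χ x
      = (Fintype.card G : ℂ) * ((∑ y, f (y + x) * f y : ℝ) : ℂ) := by
  classical
  have h1 : ∀ χ : AddChar G ℂ, ((‖ft f χ‖ ^ 2 : ℝ) : ℂ) * χ x
      = ∑ y, ∑ z, ((f y : ℂ) * f z) * χ (y - z + x) := by
    intro χ
    have h2 : ((‖ft f χ‖ ^ 2 : ℝ) : ℂ) = ft f χ * (starRingEnd ℂ) (ft f χ) := by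
      rw [Complex.mul_conj, Complex.normSq_eq_norm_sq]
    rw [h2]
    unfold ft
    rw [map_sum, Finset.sum_mul_sum, Finset.sum_mul]
    refine Finset.sum_congr rfl fun y _ => ?_
    rw [Finset.sum_mul]
    refine Finset.sum_congr rfl fun z _ => ?_
    rw [map_mul, Complex.conj_ofReal, ← AddChar.map_neg_eq_conj, AddChar.map_add_eq_mul,
      sub_eq_add_neg, AddChar.map_add_eq_mul]
    ring
  rw [Finset.sum_congr rfl fun χ _ => h1 χ, Finset.sum_comm]
  rw [Finset.sum_congr rfl fun y _ => Finset.sum_comm]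
  simp only [← Finset.mul_sum, AddChar.sum_apply_eq_ite]
  rw [Complex.ofReal_sum, Finset.mul_sum]
  refine Finset.sum_congr rfl fun y _ => ?_
  rw [Finset.sum_eq_single (y + x)]
  · rw [if_pos (by abel)]
    push_cast
    ring
  · intro z _ hz
    rw [if_neg, mul_zero]
    intro h
    apply hz
    have : y - z + x + z = 0 + z := by rw [h]
    rw [zero_add] at this
    rw [← this]
    abel
  · intro h
    exact absurd (Finset.mem_univ _) h

/-- Fourier inversion: `Σ_y m(y+x) m(y) = |G|⁻¹ Σ_χ |ft m χ|² χ(-x)`; take real parts. -/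
theorem corr_eq (a : Fam G) (x : G) :
    a.corr x = (Fintype.card G : ℝ)⁻¹ * ∑ χ : AddChar G ℂ, a.spec χ * (χ x).re := by
  have hG : (Fintype.card G : ℝ) ≠ 0 := Nat.cast_ne_zero.2 Fintype.card_ne_zero
  have h1 : ∀ f : G → ℝ, ∑ χ : AddChar G ℂ, ‖ft f χ‖ ^ 2 * (χ x).re
      = (Fintype.card G : ℝ) * ∑ y, f (y + x) * f y := by
    intro f
    have h2 := congrArg Complex.re (sum_normsq_ft f x)
    rw [Complex.re_sum] at h2
    have h3 : (Fintype.card G : ℂ) = ((Fintype.card G : ℝ) : ℂ) := by push_cast; rfl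
    rw [h3, ← Complex.ofReal_mul, Complex.ofReal_re] at h2
    rw [← h2]
    refine Finset.sum_congr rfl fun χ _ => ?_
    rw [Complex.re_ofReal_mul]
  unfold Fam.corr Fam.spec
  simp only [Finset.sum_mul]
  rw [Finset.sum_comm, Finset.mul_sum]
  refine Finset.sum_congr rfl fun i _ => ?_
  have h4 : ∀ χ : AddChar G ℂ, ‖ft (a.m i) χ‖ ^ 2 / a.p i * (χ x).re
      = (‖ft (a.m i) χ‖ ^ 2 * (χ x).re) / a.p i := fun χ => by ring
  rw [Finset.sum_congr rfl fun χ _ => h4 χ, ← Finset.sum_div, h1]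
  field_simp

/-- Parseval -/
theorem sum_spec_single (g : G → ℝ) (g0 : ∀ x, 0 ≤ g x) (g1 : ∑ x, g x = 1) :
    ∑ χ : AddChar G ℂ, (Fam.single g g0 g1).spec χ = Fintype.card G * ∑ x, g x ^ 2 := by
  have hG : (Fintype.card G : ℝ) ≠ 0 := Nat.cast_ne_zero.2 Fintype.card_ne_zero
  have h1 := corr_eq (Fam.single g g0 g1) 0
  have h2 : (Fam.single g g0 g1).corr 0 = ∑ x, g x ^ 2 := by
    show ∑ _i : Unit, (∑ y, g (y + 0) * g y) / (∑ x, g x) = _
    rw [g1]
    simp [sq]
  rw [h2] at h1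
  simp only [AddChar.map_zero_eq_one, Complex.one_re, mul_one] at h1
  rw [h1, mul_inv_cancel_left₀ hG]

end Pool.Agent.QFR
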