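import Pool.Agent.W_626a77_h48.Defs

/-!
# A Pinsker type inequality (via Hellinger) and almost periods
-/

set_option autoImplicit false

namespace Pool.Agent.QFR

open Finset Real

/-- `p log (p/q) ≥ 2 (p - √p √q)`. -/
theorem l1_term {a b : ℝ} (ha : 0 ≤ a) (hb : 0 ≤ b) (h : b = 0 → a = 0) :
    2 * (a - √a * √b) ≤ a * Real.log (a / b) := by
  rcases eq_or_lt_of_le ha with h0 | h0
  · rw [← h0]
    simp
  · have hb0 : 0 < b := lt_of_le_of_ne hb fun hb' => h0.ne' (h hb'.symm)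
    have hs : 0 < √a := Real.sqrt_pos.2 h0
    have ht : 0 < √b := Real.sqrt_pos.2 hb0
    have h1 : Real.log (a / b) = -2 * Real.log (√b / √a) := by
      rw [Real.log_div h0.ne' hb0.ne', Real.log_div ht.ne' hs.ne', Real.log_sqrt ha,
        Real.log_sqrt hb]
      ring
    have h2 : Real.log (√b / √a) ≤ √b / √a - 1 := Real.log_le_sub_one_of_pos (by positivity)
    have h3 : a * (√b / √a) = √a * √b := by
      have : a = √a * √a := (Real.mul_self_sqrt ha).symm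
      field_simp
      rw [Real.sq_sqrt ha]
    have h4 : a * Real.log (√b / √a) ≤ a * (√b / √a - 1) := mul_le_mul_of_nonneg_left h2 ha
    rw [h1]
    rw [mul_sub, h3, mul_one] at h4
    linarith

/-- `log x ≤ x - 1` gives `Σ p log(p/q) = -2 Σ p log √(q/p) ≥ 2 (P - Σ √(p q))`, and
`Σ |p-q| ≤ √(Σ(√p-√q)²) √(Σ(√p+√q)²)`, so `(Σ|p-q|)² ≤ (2P-2Σ√(pq)) (2P+2Σ√(pq))
≤ 4P (2P - 2Σ√(pq)) ≤ 4P Σ p log(p/q)` (`Σ√(pq) ≤ P`). -/
theorem l1_sq_le {κ : Type} [Fintype κ] (p q : κ → ℝ) (P : ℝ) (hp : ∀ x, 0 ≤ p x)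
    (hq : ∀ x, 0 ≤ q x) (hP : ∑ x, p x = P) (hQ : ∑ x, q x = P)
    (hac : ∀ x, q x = 0 → p x = 0) :
    (∑ x, |p x - q x|) ^ 2 ≤ 4 * P * ∑ x, p x * Real.log (p x / q x) := by
  have hP0 : 0 ≤ P := hP ▸ Finset.sum_nonneg fun x _ => hp x
  obtain ⟨A, hA⟩ : ∃ A, A = ∑ x, √(p x) * √(q x) := ⟨_, rfl⟩
  have h1 : 2 * P - 2 * A ≤ ∑ x, p x * Real.log (p x / q x) := by
    calc 2 * P - 2 * A = ∑ x, 2 * (p x - √(p x) * √(q x)) := by
          rw [← Finset.mul_sum, Finset.sum_sub_distrib, hP, hA]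
          ring
      _ ≤ _ := Finset.sum_le_sum fun x _ => l1_term (hp x) (hq x) (hac x)
  have e1 : ∑ x, (√(p x) - √(q x)) ^ 2 = 2 * P - 2 * A := by
    have : ∀ x, (√(p x) - √(q x)) ^ 2 = p x + q x - 2 * (√(p x) * √(q x)) := by
      intro x
      rw [sub_sq, Real.sq_sqrt (hp x), Real.sq_sqrt (hq x)]
      ring
    simp only [this]
    rw [Finset.sum_sub_distrib, Finset.sum_add_distrib, ← Finset.mul_sum, hP, hQ, hA]
    ring
  have e2 : ∑ x, (√(p x) + √(q x)) ^ 2 = 2 * P + 2 * A := by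
    have : ∀ x, (√(p x) + √(q x)) ^ 2 = p x + q x + 2 * (√(p x) * √(q x)) := by
      intro x
      rw [add_sq, Real.sq_sqrt (hp x), Real.sq_sqrt (hq x)]
      ring
    simp only [this]
    rw [Finset.sum_add_distrib, Finset.sum_add_distrib, ← Finset.mul_sum, hP, hQ, hA]
    ring
  have h2 : 0 ≤ 2 * P - 2 * A := e1 ▸ Finset.sum_nonneg fun x _ => sq_nonneg _
  have h3 : ∑ x, |p x - q x| = ∑ x, |√(p x) - √(q x)| * (√(p x) + √(q x)) := by
    refine Finset.sum_congr rfl fun x _ => ?_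
    have h4 : p x - q x = (√(p x) - √(q x)) * (√(p x) + √(q x)) := by
      have := Real.mul_self_sqrt (hp x)
      have := Real.mul_self_sqrt (hq x)
      linarith
    rw [h4, abs_mul, abs_of_nonneg (add_nonneg (Real.sqrt_nonneg _) (Real.sqrt_nonneg _))]
  have h4 := Finset.sum_mul_sq_le_sq_mul_sq Finset.univ (fun x => |√(p x) - √(q x)|)
    (fun x => √(p x) + √(q x))
  simp only [sq_abs] at h4
  rw [e1, e2] at h4
  rw [h3]
  calc _ ≤ (2 * P - 2 * A) * (2 * P + 2 * A) := h4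
    _ ≤ (2 * P - 2 * A) * (4 * P) := mul_le_mul_of_nonneg_left (by linarith) h2
    _ = 4 * P * (2 * P - 2 * A) := by ring
    _ ≤ _ := mul_le_mul_of_nonneg_left h1 (by positivity)

end Pool.Agent.QFR
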