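import Pool.Agent.W_626a77_h48.FamB

/-!
# Iterated doubling
-/

set_option autoImplicit false

namespace Pool.Agent.QFR

open Finset Real

variable {G : Type} [AddCommGroup G] [Fintype G]

theorem word_replicate (a : Fam G) (w : List Bool) (n : ℕ) :
    a.word (List.replicate n true ++ w) = (a.word w).S n := by
  induction n with
  | zero => rfl
  | succ n ih =>
    rw [List.replicate_succ, List.cons_append]
    show (a.word (List.replicate n true ++ w)).add (a.word (List.replicate n true ++ w)) =
      ((a.word w).S n).add ((a.word w).S n)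
    rw [ih]

/-- `H(b + Y₁ + ... + Y_{2^n}) ≤ H(b + Y) + H(Y₁+...+Y_{2^n}) - H(Y)`: induction on `n`,
`submod` with middle term `a.S n` (and associativity). -/
theorem H_add_S_le (b a : Fam G) (n : ℕ) :
    (b.add (a.S n)).H ≤ (b.add a).H + (a.S n).H - a.H := by
  induction n with
  | zero =>
    show (b.add a).H ≤ (b.add a).H + a.H - a.H
    linarith
  | succ n ih =>
    show (b.add ((a.S n).add (a.S n))).H ≤ (b.add a).H + ((a.S n).add (a.S n)).H - a.H
    have h1 := submod b (a.S n) (a.S n)
    have h2 := (iso_add_assoc b (a.S n) (a.S n)).H_eq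
    linarith

/-- monotonicity: adding more independent terms -/
theorem H_S_mono (a : Fam G) {m n : ℕ} (h : m ≤ n) : (a.S m).H ≤ (a.S n).H := by
  have h1 : Monotone fun n => (a.S n).H :=
    monotone_nat_of_le_succ fun n => H_le_add_left (a.S n) (a.S n)
  exact h1 h

theorem H_add_S_mono (b a : Fam G) {m n : ℕ} (h : m ≤ n) :
    (b.add (a.S m)).H ≤ (b.add (a.S n)).H := by
  have h1 : Monotone fun n => (b.add (a.S n)).H := by
    refine monotone_nat_of_le_succ fun n => ?_
    show (b.add (a.S n)).H ≤ (b.add ((a.S n).add (a.S n))).H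
    rw [← (iso_add_assoc b (a.S n) (a.S n)).H_eq]
    exact H_le_add_left _ _
  exact h1 h

/-- `(a.S m).S n = a.S (m + n)` -/
theorem S_S (a : Fam G) (m n : ℕ) : (a.S m).S n = a.S (m + n) := by
  induction n with
  | zero => rfl
  | succ n ih =>
    show ((a.S m).S n).add ((a.S m).S n) = (a.S (m + n)).add (a.S (m + n))
    rw [ih]

/-- adding `b` to `2^n` copies of `Y` costs at most as much as adding it to `Y` (`submod`) -/
theorem H_S_add_sub_le (a b : Fam G) (n : ℕ) :
    ((a.S n).add b).H - (a.S n).H ≤ (a.add b).H - a.H := by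
  induction n with
  | zero => exact le_refl _
  | succ n ih =>
    show (((a.S n).add (a.S n)).add b).H - ((a.S n).add (a.S n)).H ≤ (a.add b).H - a.H
    have h1 := submod (a.S n) (a.S n) b
    linarith

/-- the sum of `i + 1` copies of `T` -/
noncomputable def concU (T : Fam G) : ℕ → Fam G
  | 0 => T
  | i + 1 => (concU T i).add T

theorem concU_add (T : Fam G) (a b : ℕ) :
    Iso (concU T (a + b + 1)) ((concU T a).add (concU T b)) := by
  induction b with
  | zero => exact Iso.refl _
  | succ b ih =>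
    have h1 : Iso ((concU T (a + b + 1)).add T) (((concU T a).add (concU T b)).add T) :=
      ih.add (Iso.refl T)
    exact h1.trans (iso_add_assoc _ _ _)

theorem concU_S (T : Fam G) (j : ℕ) : Iso (concU T (2 ^ j - 1)) (T.S j) := by
  induction j with
  | zero => exact Iso.refl _
  | succ j ih =>
    have h1 : 2 ^ (j + 1) - 1 = (2 ^ j - 1) + (2 ^ j - 1) + 1 := by
      have h2 : 1 ≤ 2 ^ j := Nat.one_le_two_pow
      rw [pow_succ]
      omega
    rw [h1]
    exact (concU_add T _ _).trans (ih.add ih)

theorem concU_mono (T : Fam G) : Monotone fun i => (concU T i).H :=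
  monotone_nat_of_le_succ fun i => H_le_add_left (concU T i) T

theorem concU_anti (T : Fam G) :
    Antitone fun i => (concU T (i + 1)).H - (concU T i).H := by
  refine antitone_nat_of_succ_le fun i => ?_
  have h1 := submod T (concU T i) T
  have h2 : (T.add (concU T i)).H = (concU T (i + 1)).H := (iso_add_comm T (concU T i)).H_eq
  have h3 : ((T.add (concU T i)).add T).H = (concU T (i + 1 + 1)).H :=
    ((iso_add_comm T (concU T i)).add (Iso.refl T)).H_eq
  have h4 : ((concU T i).add T).H = (concU T (i + 1)).H := rfl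
  show (concU T (i + 1 + 1)).H - (concU T (i + 1)).H ≤ (concU T (i + 1)).H - (concU T i).H
  linarith

/-- CONCAVITY: with `U_i` = sum of `i+1` copies of `T` (`U_0 = T`, `U_{i+1} = U_i + T`) the
increments `H(U_{i+1}) - H(U_i)` are nonincreasing (`submod` with middle term `U_i`), and
`U_{2^j-1}` is isomorphic to `T.S j` (`iso_add_assoc`, induction: `U_{a+b+1} ≅ U_a + U_b`).  So
`2^j (H(T.S j + T) - H(T.S j)) ≤ H(U_{2^j}) - H(U_0) ≤ H(T.S (j+1)) - H(T)`. -/
theorem conc (T : Fam G) (j : ℕ) :
    (2 : ℝ) ^ j * (((T.S j).add T).H - (T.S j).H) ≤ (T.S (j + 1)).H - T.H := by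
  have h1 : 1 ≤ 2 ^ j := Nat.one_le_two_pow
  have hj : 2 ^ j - 1 + 1 = 2 ^ j := by omega
  have e1 : (T.S j).H = (concU T (2 ^ j - 1)).H := (concU_S T j).H_eq.symm
  have e2 : ((T.S j).add T).H = (concU T (2 ^ j - 1 + 1)).H :=
    (((concU_S T j).symm).add (Iso.refl T)).H_eq
  have e3 : (T.S (j + 1)).H = (concU T (2 ^ (j + 1) - 1)).H := (concU_S T (j + 1)).H_eq.symm
  have h2 : ∑ i ∈ Finset.range (2 ^ j), ((concU T (i + 1)).H - (concU T i).H) =
      (concU T (2 ^ j)).H - (concU T 0).H :=
    Finset.sum_range_sub (fun i => (concU T i).H) (2 ^ j)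
  have h3 : (Finset.range (2 ^ j)).card • ((concU T (2 ^ j - 1 + 1)).H - (concU T (2 ^ j - 1)).H) ≤
      ∑ i ∈ Finset.range (2 ^ j), ((concU T (i + 1)).H - (concU T i).H) := by
    refine Finset.card_nsmul_le_sum _ _ _ fun i hi => ?_
    have h4 : i ≤ 2 ^ j - 1 := by
      have := Finset.mem_range.1 hi
      omega
    exact concU_anti T h4
  have h5 : (concU T (2 ^ j)).H ≤ (concU T (2 ^ (j + 1) - 1)).H := by
    apply concU_mono T
    rw [pow_succ]
    omega
  have h6 : (concU T 0).H = T.H := rfl
  rw [Finset.card_range, nsmul_eq_mul] at h3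
  push_cast at h3
  rw [e2, e1, e3]
  linarith

end Pool.Agent.QFR
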