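import Pool.Agent.W_626a77_h48.WordE
import Pool.Agent.W_626a77_h48.WordS

/-!
# Multi-scale regularisation of a random variable
-/

set_option autoImplicit false

namespace Pool.Agent.QFR

open Finset Real

variable {G : Type} [AddCommGroup G] [Fintype G]

/-- `W_MP_626a77_h55.tree_lemma` for `E w = (a.word w).H` (`word_harm`, `word_mono`, `word_exch`), `word_replicate`; for the last inequality `cost_word`
and `H_add_S_le`: `H(X + S^n w) ≤ H(X + X) + 128 κ n^2 + (E(S^n w) - E(w))`. -/
theorem exists_reg (a : Fam G) {κ : ℝ} (hκ : (a.add a).H - a.H ≤ κ) (hκ0 : 0 < κ)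
    (n : ℕ) (hn : 1 ≤ n) :
    ∃ w : List Bool, w.length = 16 * n ^ 2 ∧
      a.H - 256 * κ * n ≤ (a.word w).H ∧
      ((a.word w).S n).H ≤ a.H + 264 * κ * n ∧
      (a.add ((a.word w).S n)).H ≤ a.H + κ + 128 * κ * n ^ 2 + 520 * κ * n := by
  obtain ⟨w, hw, h1, h2, h3⟩ := W_MP_626a77_h55.tree_lemma (E := fun w => (a.word w).H) (k := κ)
    (word_harm a) (word_mono a) (word_exch a) hκ0 hκ n hn
  have h2' : ((a.word w).S n).H ≤ a.H + 264 * κ * n := by
    rw [← word_replicate]
    exact h2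
  have h1' : a.H - 256 * κ * n ≤ (a.word w).H := h1
  have h4 := H_add_S_le a (a.word w) n
  have h5 := cost_word a a w
  exact ⟨w, hw, h1', h2', by linarith⟩

end Pool.Agent.QFR
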