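import Pool.Agent.W_626a77_h48.FamB
import Pool.Agent.W_626a77_h48.FamX
import Pool.Agent.W_MP_626a77_h55.Tree

/-!
# The entropy function on words: the three properties and the cost of a word
-/

set_option autoImplicit false

namespace Pool.Agent.QFR

open Finset Real

variable {G : Type} [AddCommGroup G] [Fintype G]

/-- `H_fib_add_H_add` -/
theorem word_harm (a : Fam G) (w : List Bool) :
    (a.word (true :: w)).H + (a.word (false :: w)).H = 2 * (a.word w).H := by
  have h := H_fib_add_H_add (a.word w) (a.word w)
  have h1 : (a.word (true :: w)).H = ((a.word w).add (a.word w)).H := rfl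
  have h2 : (a.word (false :: w)).H = ((a.word w).fib (a.word w)).H := rfl
  rw [h1, h2]
  linarith

/-- `H_le_add_left` -/
theorem word_mono (a : Fam G) (w : List Bool) : (a.word w).H ≤ (a.word (true :: w)).H :=
  H_le_add_left (a.word w) (a.word w)

/-- by induction on `u`,
`Refines (a.word (u ++ true :: false :: w)) (a.word (u ++ false :: true :: w))`
(base case `exchange`, steps `Refines.add`, `Refines.fib`), then `Refines.H_le`. -/
theorem word_exch (a : Fam G) (u w : List Bool) :
    (a.word (u ++ true :: false :: w)).H ≤ (a.word (u ++ false :: true :: w)).H := by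
  have h : Refines (a.word (u ++ true :: false :: w)) (a.word (u ++ false :: true :: w)) := by
    induction u with
    | nil => exact exchange (a.word w) (a.word w) (a.word w) (a.word w)
    | cons b u ih =>
      cases b with
      | true => exact ih.add ih
      | false => exact ih.fib ih
  exact h.H_le

/-- COST OF A WORD.  Induction on `w`: for `w = true :: v` use `submod`
(`H(b+Y+Y') ≤ H(b+Y) + H(Y+Y') - H(Y)`, increment `k(v)`), for `w = false :: v` the family
`b.add (Y.fib Y)` refines `b.add Y` (`refines_fib_left`) and `k(v) ≥ 0`. -/
theorem cost_word (b a : Fam G) (w : List Bool) :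
    (b.add (a.word w)).H ≤ (b.add a).H +
      W_MP_626a77_h55.innerSum (fun w => (a.word w).H) w := by
  induction w with
  | nil =>
    have h1 : a.word [] = a := rfl
    rw [h1]
    simp [W_MP_626a77_h55.innerSum]
  | cons c v ih =>
    have hi : W_MP_626a77_h55.innerSum (fun w => (a.word w).H) (c :: v) =
        W_MP_626a77_h55.innerSum (fun w => (a.word w).H) v +
          ((a.word (true :: v)).H - (a.word v).H) := rfl
    rw [hi]
    cases c with
    | true =>
      have h1 : (b.add (a.word (true :: v))).H = ((b.add (a.word v)).add (a.word v)).H :=
        (iso_add_assoc b (a.word v) (a.word v)).H_eq.symm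
      have h2 := submod b (a.word v) (a.word v)
      have h3 : (a.word (true :: v)).H = ((a.word v).add (a.word v)).H := rfl
      rw [h1, h3]
      linarith
    | false =>
      have h1 : (b.add (a.word (false :: v))).H ≤ (b.add (a.word v)).H :=
        ((Refines.refl b).add (refines_fib_left (a.word v) (a.word v))).H_le
      have h2 := word_mono a v
      linarith

end Pool.Agent.QFR
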